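import Pool.Agent.K4H25.RT.R13

/-!
The inequality of Iitaka for the images of families of fibrations by curves: the assembly.
-/

set_option autoImplicit false
set_option linter.unusedSectionVars false
set_option linter.overlappingInstances false
set_option maxHeartbeats 4000000
set_option synthInstance.maxHeartbeats 400000

open Module FF Pool.Agent.W602.GT Pool.Agent.W603.LV Pool.Agent.Y172
open Pool.Agent.Y184.NT (trForm trForm_pluri)
open Pool.Agent.R882.LT (SecAt TraceNe secAt_of trForm_regAt)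
open Pool.Agent.W619.PQ (IsUniruled)

namespace Pool.Agent.K4H25.RT

open Pool.Agent.K4H25.MG Pool.Agent.K4H25.PC Pool.Agent.K4H62.IT

section

variable {K L : Type} [Field K] [Field L] [Algebra ℂ K] [Algebra ℂ L]
  [Algebra L K] [IsScalarTower ℂ L K] [FiniteDimensional L K] {E : IntermediateField ℂ L}
  {n e N q d : ℕ} {β : Fin N → Fin q} {M : Fin q → ℕ} {t : Fin N → K}

theorem dims_rel (hK : Algebra.trdeg ℂ K = (n + 1 : ℕ)) (hE : Algebra.trdeg ℂ E = e)
    (hf : Algebra.trdeg E L = (d + 1 : ℕ))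
    (hd : Algebra.trdeg E (IntermediateField.adjoin E (Set.range t)) = (d : ℕ)) :
    e + d = n ∧
      Algebra.trdeg ℂ ((IntermediateField.adjoin E (Set.range t)).restrictScalars ℂ) = (n : ℕ) := by
  have hL : Algebra.trdeg ℂ L = (n + 1 : ℕ) := Pool.Agent.Y184.NT.trdeg_below (K := K) hK
  have hdn : e + d = n := by
    have h3 := trdeg_add_eq ℂ E (A := L)
    rw [hE, hf, hL] at h3
    have h4 : e + (d + 1) = n + 1 := by exact_mod_cast h3
    omega
  refine ⟨hdn, ?_⟩
  have h3 := trdeg_add_eq ℂ E (A := IntermediateField.adjoin E (Set.range t))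
  rw [hE, hd] at h3
  have h4 : Algebra.trdeg ℂ (IntermediateField.adjoin E (Set.range t)) = n := by
    rw [← h3, ← hdn]
    push_cast
    rfl
  exact h4

theorem hcl_rel
    (hcl : ∀ g : K, IsAlgebraic (IntermediateField.adjoin E (Set.range t)) g →
      g ∈ IntermediateField.adjoin E (Set.range t)) (g : K)
    (hg : IsAlgebraic ((IntermediateField.adjoin E (Set.range t)).restrictScalars ℂ) g) :
    g ∈ (IntermediateField.adjoin E (Set.range t)).restrictScalars ℂ :=
  hcl g hg

/-- `κ(W) ≥ r + κ(Y)`, if the canonical divisor of the generic fibre of `W → Y` is pseudoeffective -/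
theorem psef_rel [Algebra.EssFiniteType ℂ K] [Algebra.EssFiniteType ℂ E]
    (hK : Algebra.trdeg ℂ K = (n + 1 : ℕ)) (hE : Algebra.trdeg ℂ E = e)
    (hf : Algebra.trdeg E L = (d + 1 : ℕ)) {z : Fin e → E} (hz : IsTranscendenceBasis ℂ z)
    {J : Type} [Finite J] {ω : J → (Fin (n + 1) → Derivation ℂ K K) → K}
    (hω : ∀ j, RelTwisted (n + 1) z β M t (ω j))
    (hd : Algebra.trdeg E (IntermediateField.adjoin E (Set.range t)) = (d : ℕ))
    (hcl : ∀ g : K, IsAlgebraic (IntermediateField.adjoin E (Set.range t)) g →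
      g ∈ IntermediateField.adjoin E (Set.range t))
    (hspan : Pool.Agent.K4H25.LP.SpanFibL
      ((IntermediateField.adjoin E (Set.range t)).restrictScalars ℂ) (fun _ => False) ω)
    {p : ℕ} (h1 : KodGe ℂ E e (fun _ => False) p) (h2 : Psef E L (d + 1) (fun _ => False)) :
    ((∀ Λ : Finset (Fin q), Λ.Nonempty → fdeg L β t Λ ≤ 1 + ∑ b ∈ Λ, M b) →
      ∀ r : ℕ, r ≤ d →
        (∀ Λ : Finset (Fin q), Λ.Nonempty →
          Algebra.trdeg E (IntermediateField.adjoin E (t '' {j | β j ∉ Λ})) < (r : ℕ) →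
          2 * fdeg L β t Λ ≤ 1 + ∑ b ∈ Λ, M b) →
        KodGe ℂ L (n + 1) (fun _ => False) (r + p)) ∧
    ((∀ b, finrank L (IntermediateField.adjoin L (Set.range t)) ≤ M b) →
      KodGe ℂ L (n + 1) (fun _ => False) (d - 1 + p)) := by
  obtain ⟨hdn, hB⟩ := dims_rel (K := K) hK hE hf hd
  obtain ⟨j, htr⟩ := exists_trace_rel hK hE hf hB (hcl_rel hcl) hspan
    (Pool.Agent.R882.UA.kod_mono h1 (Nat.zero_le _)) h2
  exact main_rel hK hE hz (hω j) htr hd h1

/-- **The inequality of Iitaka.** -/
theorem iitaka_rel [Algebra.EssFiniteType ℂ K] [Algebra.EssFiniteType ℂ E]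
    (hK : Algebra.trdeg ℂ K = (n + 1 : ℕ)) (hE : Algebra.trdeg ℂ E = e)
    (hf : Algebra.trdeg E L = (d + 1 : ℕ)) {z : Fin e → E} (hz : IsTranscendenceBasis ℂ z)
    {J : Type} [Finite J] {ω : J → (Fin (n + 1) → Derivation ℂ K K) → K}
    (hω : ∀ j, RelTwisted (n + 1) z β M t (ω j))
    (hd : Algebra.trdeg E (IntermediateField.adjoin E (Set.range t)) = (d : ℕ))
    (hcl : ∀ g : K, IsAlgebraic (IntermediateField.adjoin E (Set.range t)) g →
      g ∈ IntermediateField.adjoin E (Set.range t))
    (hspan : Pool.Agent.K4H25.LP.SpanFibL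
      ((IntermediateField.adjoin E (Set.range t)).restrictScalars ℂ) (fun _ => False) ω)
    (hm : ∀ Λ : Finset (Fin q), Λ.Nonempty → 2 * fdeg L β t Λ ≤ 1 + ∑ b ∈ Λ, M b)
    {p s : ℕ} (h1 : KodGe ℂ E e (fun _ => False) p)
    (h2 : KodGe E L (d + 1) (fun _ => False) s) :
    KodGe ℂ L (n + 1) (fun _ => False) (s + p) := by
  classical
  have hL : Algebra.trdeg ℂ L = (n + 1 : ℕ) := Pool.Agent.Y184.NT.trdeg_below (K := K) hK
  have hessL : Algebra.EssFiniteType ℂ L := Pool.Agent.TH466.QG.ess_below (K := K)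
  obtain ⟨hdn, hB⟩ := dims_rel (K := K) hK hE hf hd
  have hY0 := Pool.Agent.R882.UA.kod_mono h1 (Nat.zero_le _)
  have hF0 := psef_of_kodGe (Pool.Agent.R882.UA.kod_mono h2 (Nat.zero_le _))
  have hs := Pool.Agent.R882.UA.kod_le_dim hf h2
  by_cases hle : s ≤ d
  · have h3 := (psef_rel hK hE hf hz hω hd hcl hspan h1 hF0).1
      (fun Λ hΛ => by
        have := hm Λ hΛ
        omega) d le_rfl fun Λ hΛ _ => hm Λ hΛ
    exact Pool.Agent.R882.UA.kod_mono h3 (by omega)
  · obtain rfl : s = d + 1 := by omega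
    obtain ⟨y, Y, hy, hY⟩ := Pool.Agent.Y172.exists_crd (k := ℂ) (K := L) hL
    choose Y' hY' using fun i =>
      Pool.Agent.Y172.exists_lift (k := ℂ) (K := L) (L := K) hL (Y i)
    obtain ⟨T, hT⟩ : ∃ T : J → IntermediateField.adjoin L (Set.range t),
      ∀ j, T j = Algebra.trace (IntermediateField.adjoin L (Set.range t)) K (ω j Y') :=
        ⟨_, fun _ => rfl⟩
    by_cases hgt : ∃ j0 j1, T j0 ≠ 0 ∧
        ¬ IsAlgebraic (IntermediateField.adjoin E (Set.range t)) ((T j1 / T j0 :
          IntermediateField.adjoin L (Set.range t)) : K)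
    · obtain ⟨j0, j1, h3, h4⟩ := hgt
      obtain ⟨T', h5, h6, h7⟩ := gt_rel (E := E) (j0 := j0) (j1 := j1) (u := T j1 / T j0)
        hK hω hd hf hy hY hY' (by rw [← hT]; exact h3)
        (by rw [← hT, ← hT, div_mul_cancel₀ _ h3]) h4
        (fun Λ hΛ => (hm Λ hΛ).trans_eq (add_comm _ _))
      exact kod_rel hL hE hz hY h5 h6 h7 h1
    · exfalso
      push Not at hgt
      have hleB : (IntermediateField.adjoin E (Set.range t)).restrictScalars ℂ ≤
          (IntermediateField.adjoin L (Set.range t)).restrictScalars ℂ := by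
        intro x hx
        have h3 : IntermediateField.adjoin E (Set.range t) ≤
            (IntermediateField.adjoin L (Set.range t)).restrictScalars E := by
          rw [IntermediateField.adjoin_le_iff]
          exact IntermediateField.subset_adjoin L _
        exact h3 hx
      have hEB : ∀ x : E, algebraMap L K (x : L) ∈
          (IntermediateField.adjoin E (Set.range t)).restrictScalars ℂ := fun x =>
        (IntermediateField.adjoin E (Set.range t)).algebraMap_mem x
      exact Pool.Agent.R882.UA.fib_not hL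
        (uniruled_prop hK hB (hcl_rel hcl) hleB hspan
          (prop_frames hK (hcl_rel hcl) (fun j => (hω j).1) hy hY hY' hT
            fun j0 j1 h => hgt j0 j1 h) hE hf hEB h2) E hE hf hY0 hF0

end

end Pool.Agent.K4H25.RT
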