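import Pool.Agent.K4H25.PC.Kod
import Pool.Agent.K4H25.LF.F2

/-!
Ratios of traces which are algebraically independent over the function field of the base of a
fibration.
-/

set_option autoImplicit false
set_option linter.unusedSectionVars false
set_option linter.overlappingInstances false
set_option maxHeartbeats 4000000

open Module

namespace Pool.Agent.K4H25.RT

open Pool.Agent.K4H25.MG Pool.Agent.K4H25.PC

/-- Elements which are algebraic over a subfield. -/
theorem trdeg_le_of_alg' {B E F : Type} [Field B] [Field E] [Field F] [Algebra B E] [Algebra B F]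
    [Algebra E F] [IsScalarTower B E F] {G : Set F} (halg : ∀ z ∈ G, IsAlgebraic E z) :
    Algebra.trdeg B (IntermediateField.adjoin B G) ≤ Algebra.trdeg B E := by
  let H : IntermediateField E F := algebraicClosure E F
  have hT : IsScalarTower B E H := IsScalarTower.of_algebraMap_eq fun c => Subtype.ext
    (IsScalarTower.algebraMap_apply B E F c)
  have h3 : Algebra.trdeg B H = Algebra.trdeg B E := by
    rw [← trdeg_add_eq B E (A := H), trdeg_eq_zero (R := E) (A := H), add_zero]
  have hle : IntermediateField.adjoin B G ≤ H.restrictScalars B := by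
    rw [IntermediateField.adjoin_le_iff]
    exact fun z hz => mem_algebraicClosure_iff.2 (halg z hz)
  have h4 := trdeg_le_of_injective (IntermediateField.inclusion hle)
    (IntermediateField.inclusion_injective hle)
  exact h4.trans h3.le

/-- transport of the transcendence degree -/
theorem trdeg_map' {B L K : Type} [Field B] [Field L] [Field K] [Algebra B L] [Algebra B K]
    [Algebra L K] [IsScalarTower B L K] {N : ℕ} {t : Fin N → K}
    {x : Fin N → IntermediateField.adjoin L (Set.range t)} (hx : ∀ j, (x j : K) = t j)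
    (J : Set (Fin N)) :
    Algebra.trdeg B (IntermediateField.adjoin B (x '' J)) =
      Algebra.trdeg B (IntermediateField.adjoin B (t '' J)) := by
  have hTow : IsScalarTower B (IntermediateField.adjoin L (Set.range t)) K :=
    IsScalarTower.of_algebraMap_eq fun r => rfl
  let φ : IntermediateField.adjoin L (Set.range t) →ₐ[B] K :=
    IsScalarTower.toAlgHom B (IntermediateField.adjoin L (Set.range t)) K
  have h1 : (IntermediateField.adjoin B (x '' J)).map φ =
      IntermediateField.adjoin B (t '' J) := by
    rw [IntermediateField.adjoin_map]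
    congr 1
    ext z
    constructor
    · rintro ⟨_, ⟨j, hj, rfl⟩, rfl⟩
      exact ⟨j, hj, (hx j).symm⟩
    · rintro ⟨j, hj, rfl⟩
      exact ⟨x j, ⟨j, hj, rfl⟩, hx j⟩
  have h2 := (IntermediateField.equivMap (IntermediateField.adjoin B (x '' J)) φ)
  rw [h1] at h2
  exact h2.trdeg_eq

section

variable {L F B : Type} [Field L] [Field F] [Field B] [Algebra ℂ L] [Algebra ℂ F] [Algebra L F]
  [Algebra ℂ B] [Algebra B L] [Algebra B F] [IsScalarTower ℂ B L] [IsScalarTower B L F]
  [IsScalarTower ℂ L F] [FiniteDimensional L F] {N q : ℕ} {β : Fin N → Fin q} {M : Fin q → ℕ}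
  {x : Fin N → F} {ι : Type} {G : ι → F}

/-- **Ratios of traces.** -/
theorem ratios_rel (hG : SepSys β M x G) {n d r : ℕ} (hL : Algebra.trdeg B L = n)
    (hgen : IntermediateField.adjoin L (Set.range x) = ⊤)
    (hd : Algebra.trdeg B (IntermediateField.adjoin B (Set.range x)) = (d : ℕ))
    (hm : ∀ Λ : Finset (Fin q), Λ.Nonempty →
      finrank (IntermediateField.adjoin L (x '' {j | β j ∉ Λ})) F ≤ ∑ b ∈ Λ, M b + 1)
    (hr : r ≤ d) (hk : ∀ Λ : Finset (Fin q), Λ.Nonempty →
      Algebra.trdeg B (IntermediateField.adjoin B (x '' {j | β j ∉ Λ})) < (r : ℕ) →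
      2 * finrank (IntermediateField.adjoin L (x '' {j | β j ∉ Λ})) F ≤ ∑ b ∈ Λ, M b + 1)
    {h : F} (hh : h ≠ 0) {T : ι → L}
    (hT : ∀ a, T a = Algebra.trace L F (G a * h)) :
    ∃ s : Fin (r + 1) → ι, T (s 0) ≠ 0 ∧
      AlgebraicIndependent B (fun i : Fin r => T (s i.succ) / T (s 0)) := by
  classical
  have hcL : CharZero L := charZero_of_injective_algebraMap (algebraMap ℂ L).injective
  obtain ⟨a0, hTa0⟩ := exists_ne_sys hG hgen hm hh hT
  obtain ⟨R, hR⟩ : ∃ R : Set L, R = {z | ∃ a : ι, z = T a / T a0} := ⟨_, rfl⟩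
  obtain ⟨E, hE⟩ : ∃ E : IntermediateField B L, E = IntermediateField.adjoin B R := ⟨_, rfl⟩
  obtain ⟨e, he⟩ : ∃ e : ℕ, Algebra.trdeg B E = e := by
    have h1 : Algebra.trdeg B E ≤ n := by
      rw [← hL]
      exact trdeg_le_of_injective E.val E.val.toRingHom.injective
    obtain ⟨e, h2⟩ := Cardinal.lt_aleph0.1 (h1.trans_lt Cardinal.natCast_lt_aleph0)
    exact ⟨e, h2⟩
  have hTE : IsScalarTower B E F := IsScalarTower.of_algebraMap_eq fun c => by
    rw [IsScalarTower.algebraMap_apply B L F, IsScalarTower.algebraMap_apply E L F]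
    rfl
  have hre : r ≤ e := by
    by_contra hlt
    obtain ⟨Ω, iΩ, hΩ, τ, τ', hττ, hgeneric⟩ := exists_generic E L
    have hgen' := hgeneric F
    obtain ⟨σ, hσ, htr, hne⟩ := exists_embs τ x hgen
    obtain ⟨σ', hσ', htr', hne'⟩ := exists_embs τ' x hgen
    have hinj : Function.Injective σ := by
      intro i i' hii
      by_contra h1
      obtain ⟨j, hj⟩ := hne i i' h1
      exact hj (by rw [hii])
    have hinj' : Function.Injective σ' := by
      intro i i' hii
      by_contra h1
      obtain ⟨j, hj⟩ := hne' i i' h1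
      exact hj (by rw [hii])
    have hpos : 0 < finrank L F := finrank_pos
    obtain ⟨i0⟩ : Nonempty (Fin (finrank L F)) := ⟨⟨0, hpos⟩⟩
    obtain ⟨v, hv⟩ : ∃ v : Fin (finrank L F) ⊕ Fin (finrank L F) → Fin N → Ω,
      v = Sum.elim (fun i j => σ i (x j)) (fun i j => σ' i (x j)) := ⟨_, rfl⟩
    have hvl : ∀ i j, v (Sum.inl i) j = σ i (x j) := fun i j => by rw [hv]; rfl
    have hvr : ∀ i j, v (Sum.inr i) j = σ' i (x j) := fun i j => by rw [hv]; rfl
    obtain ⟨D, hDdef⟩ : ∃ D : Fin (finrank L F) ⊕ Fin (finrank L F) → Finset (Fin q),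
      ∀ s, D s = (Finset.univ.filter fun j : Fin N => v s j ≠ v (Sum.inl i0) j).image β :=
      ⟨_, fun _ => rfl⟩
    have hmemD : ∀ s b, b ∈ D s ↔ ∃ j, v s j ≠ v (Sum.inl i0) j ∧ β j = b := fun s b => by
      rw [hDdef, Finset.mem_image]
      simp
    have hagree : ∀ s j (Λ : Finset (Fin q)), D s ⊆ Λ → β j ∉ Λ → v s j = v (Sum.inl i0) j := by
      intro s j Λ hs hj
      by_contra h4
      exact hj (hs ((hmemD _ _).2 ⟨j, h4, rfl⟩))
    -- the coordinates in which the two families agree
    have hB : ∀ i (Λ : Finset (Fin q)), D (Sum.inr i) ⊆ Λ →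
        Algebra.trdeg B (IntermediateField.adjoin B (x '' {j | β j ∉ Λ})) < (r : ℕ) := by
      intro i Λ hi
      have h1 : ∀ z ∈ x '' {j | β j ∉ Λ}, IsAlgebraic E z := by
        rintro _ ⟨j, hj, rfl⟩
        have h2 := hagree _ j Λ hi hj
        rw [hvl, hvr] at h2
        exact hgen' (σ i0) (σ' i) (hσ i0) (hσ' i) (x j) h2.symm
      refine lt_of_le_of_lt (trdeg_le_of_alg' (B := B) (E := E) h1) ?_
      rw [he]
      exact_mod_cast not_le.1 hlt
    -- the differences of the family of `σ'`
    have hcr : ∀ Λ : Finset (Fin q), (Finset.univ.filter fun i : Fin (finrank L F) =>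
        D (Sum.inr i) ⊆ Λ).card ≤
          finrank (IntermediateField.adjoin L (x '' {j | β j ∉ Λ})) F := by
      intro Λ
      rcases (Finset.univ.filter fun i : Fin (finrank L F) => D (Sum.inr i) ⊆ Λ).eq_empty_or_nonempty
        with h0 | ⟨i1, hi1⟩
      · rw [h0, Finset.card_empty]
        exact Nat.zero_le _
      · refine le_trans (Finset.card_le_card fun i hi => ?_) (card_agree hσ' hinj' (σ' i1)
          (hσ' i1) {j | β j ∉ Λ})
        refine Finset.mem_filter.2 ⟨Finset.mem_univ _, fun j hj => ?_⟩
        have h1 := hagree _ j Λ (Finset.mem_filter.1 hi).2 hj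
        rw [← hagree _ j Λ (Finset.mem_filter.1 hi1).2 hj, hvr, hvr] at h1
        exact h1
    have hcl : ∀ Λ : Finset (Fin q), ((Finset.univ.erase i0).filter fun i : Fin (finrank L F) =>
        D (Sum.inl i) ⊆ Λ).card + 1 ≤
          finrank (IntermediateField.adjoin L (x '' {j | β j ∉ Λ})) F := by
      intro Λ
      refine le_trans ?_ (card_agree hσ hinj (σ i0) (hσ i0) {j | β j ∉ Λ})
      rw [← Finset.card_insert_of_notMem (a := i0)
        (fun hi => Finset.notMem_erase i0 _ (Finset.mem_filter.1 hi).1)]
      refine Finset.card_le_card fun i hi => ?_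
      rcases Finset.mem_insert.1 hi with rfl | hi
      · exact Finset.mem_filter.2 ⟨Finset.mem_univ _, fun _ _ => rfl⟩
      · refine Finset.mem_filter.2 ⟨Finset.mem_univ _, fun j hj => ?_⟩
        have h1 := hagree _ j Λ (Finset.mem_filter.1 hi).2 hj
        rw [hvl, hvl] at h1
        exact h1
    obtain ⟨l, hl, hc⟩ := exists_assign D M (Finset.univ.erase (Sum.inl i0)) (fun s hs => by
        rcases s with i | i
        · obtain ⟨j, hj⟩ := hne i i0 fun e => Finset.ne_of_mem_erase hs (by rw [e])
          refine ⟨β j, (hmemD _ _).2 ⟨j, ?_, rfl⟩⟩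
          rw [hvl, hvl]
          exact hj
        · by_contra hcon
          rw [Finset.not_nonempty_iff_eq_empty] at hcon
          have h1 := hB i ∅ (by rw [hcon])
          have h2 : x '' {j | β j ∉ (∅ : Finset (Fin q))} = Set.range x := by
            rw [← Set.image_univ]
            congr 1
            ext j
            simp
          rw [h2, hd] at h1
          have h3 : d < r := by exact_mod_cast h1
          omega) (fun Λ hΛ => by
      have h1 : ((Finset.univ.erase (Sum.inl i0 : Fin (finrank L F) ⊕ Fin (finrank L F))).filter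
          fun s => D s ⊆ Λ) ⊆
          ((Finset.univ.erase i0).filter fun i : Fin (finrank L F) =>
            D (Sum.inl i) ⊆ Λ).map Function.Embedding.inl ∪
          (Finset.univ.filter fun i : Fin (finrank L F) =>
            D (Sum.inr i) ⊆ Λ).map Function.Embedding.inr := by
        intro s hs
        obtain ⟨hs1, hs2⟩ := Finset.mem_filter.1 hs
        rw [Finset.mem_union]
        rcases s with i | i
        · left
          exact Finset.mem_map.2 ⟨i, Finset.mem_filter.2 ⟨Finset.mem_erase.2
            ⟨fun e => Finset.ne_of_mem_erase hs1 (by rw [e]), Finset.mem_univ _⟩, hs2⟩, rfl⟩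
        · right
          exact Finset.mem_map.2 ⟨i, Finset.mem_filter.2 ⟨Finset.mem_univ _, hs2⟩, rfl⟩
      have h2 := (Finset.card_le_card h1).trans (Finset.card_union_le _ _)
      rw [Finset.card_map, Finset.card_map] at h2
      have h3 := hcl Λ
      have h4 := hcr Λ
      rcases (Finset.univ.filter fun i : Fin (finrank L F) =>
          D (Sum.inr i) ⊆ Λ).eq_empty_or_nonempty with h0 | ⟨i1, hi1⟩
      · rw [h0, Finset.card_empty] at h2
        have h6 := hm Λ hΛ
        omega
      · have h5 := hk Λ hΛ (hB i1 Λ (Finset.mem_filter.1 hi1).2)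
        omega)
    have hl' : ∀ s : {s // s ∈ Finset.univ.erase (Sum.inl i0 : Fin (finrank L F) ⊕ _)},
        ∃ j, v s j ≠ v (Sum.inl i0) j ∧ β j = l s := fun s => (hmemD _ _).1 (hl s)
    choose l' hl1 hl2 using hl'
    have h1 := hG _ _ Finset.univ
      (Sum.elim (fun i => τ' (T a0) * σ i h) (fun i => -(τ (T a0) * σ' i h))) (Sum.elim σ σ')
      (fun s s' z => by
        have hz : ∀ s : Fin (finrank L F) ⊕ Fin (finrank L F),
            (Sum.elim σ σ' s : F →+* Ω) (algebraMap ℂ F z) = τ (algebraMap ℂ L z) := by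
          intro s
          rcases s with i | i
          · rw [Sum.elim_inl, IsScalarTower.algebraMap_apply ℂ L F, hσ]
          · rw [Sum.elim_inr, IsScalarTower.algebraMap_apply ℂ L F, hσ']
            have h9 := hττ (algebraMap B E (algebraMap ℂ B z))
            have h10 : algebraMap E L (algebraMap B E (algebraMap ℂ B z)) = algebraMap ℂ L z := by
              rw [← IsScalarTower.algebraMap_apply B E L, ← IsScalarTower.algebraMap_apply ℂ B L]
            rw [h10] at h9
            exact h9.symm
        rw [hz, hz])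
      (fun a => by
        have h2 := htr (G a * h)
        have h3 := htr' (G a * h)
        rw [← hT] at h2 h3
        have hmem : T a / T a0 ∈ E := by
          rw [hE]
          exact IntermediateField.subset_adjoin _ _ (by rw [hR]; exact ⟨a, rfl⟩)
        have h4 : τ (T a / T a0) = τ' (T a / T a0) := hττ ⟨_, hmem⟩
        have hτ0 : τ (T a0) ≠ 0 := (_root_.map_ne_zero τ).2 hTa0
        have hτ0' : τ' (T a0) ≠ 0 := (_root_.map_ne_zero τ').2 hTa0
        rw [map_div₀, map_div₀, div_eq_div_iff hτ0 hτ0'] at h4
        rw [Fintype.sum_sum_type]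
        simp only [Sum.elim_inl, Sum.elim_inr]
        have h5 : ∑ i, τ' (T a0) * σ i h * σ i (G a) = τ' (T a0) * τ (T a) := by
          rw [h2, Finset.mul_sum]
          refine Finset.sum_congr rfl fun i _ => ?_
          rw [map_mul, mul_assoc, mul_comm (σ i h)]
        have h6 : ∑ i, -(τ (T a0) * σ' i h) * σ' i (G a) = -(τ (T a0) * τ' (T a)) := by
          rw [h3, Finset.mul_sum, ← Finset.sum_neg_distrib]
          refine Finset.sum_congr rfl fun i _ => ?_
          rw [map_mul, neg_mul, mul_assoc, mul_comm (σ' i h)]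
        rw [h5, h6]
        linear_combination h4)
      (Sum.inl i0) (Finset.mem_univ (Sum.inl i0)) l' (fun s => by
        have h7 := hl1 s
        rw [hv] at h7
        obtain ⟨s, hs⟩ := s
        rcases s with i | i
        · exact h7
        · exact h7) (fun b => by simpa only [hl2] using hc b)
    rw [Sum.elim_inl] at h1
    rcases mul_eq_zero.1 h1 with h2 | h2
    · exact hTa0 ((map_eq_zero τ').1 h2)
    · exact hh ((map_eq_zero (σ i0)).1 h2)
  -- extract the ratios
  obtain ⟨tt, htt, hind, -⟩ := Pool.Agent.R885.exists_mono_basis (k := B) (K := L) (G := R)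
    (d := e) (by rw [← hE]; exact he)
  have htt' : ∀ i : Fin e, ∃ a : ι, tt i = T a / T a0 := by
    intro i
    have h1 := htt i
    rw [hR] at h1
    exact h1
  choose a hta using htt'
  refine ⟨Fin.cons a0 fun i => a (Fin.castLE hre i), ?_, ?_⟩
  · rw [Fin.cons_zero]
    exact hTa0
  · have h1 : AlgebraicIndependent B fun i : Fin r => tt (Fin.castLE hre i) :=
      hind.comp _ (Fin.castLE_injective hre)
    convert h1 using 1
    funext i
    rw [Fin.cons_succ, Fin.cons_zero, hta]

end

end Pool.Agent.K4H25.RT
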