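import Pool.Agent.K4H25.RT.R9
import Pool.Agent.K4H62.IT.Gt

/-!
Ratios of traces with one more coordinate, over the field of the base.
-/

set_option autoImplicit false
set_option linter.unusedSectionVars false
set_option linter.overlappingInstances false
set_option maxHeartbeats 4000000
set_option synthInstance.maxHeartbeats 400000

open Module FF Pool.Agent.W602.GT Pool.Agent.W603.LV Pool.Agent.Y172
open Pool.Agent.Y184.NT (trForm trForm_pluri)
open Pool.Agent.R882.LT (SecAt TraceNe secAt_of trForm_regAt)

namespace Pool.Agent.K4H25.RT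

open Pool.Agent.K4H25.MG Pool.Agent.K4H25.PC Pool.Agent.K4H62.IT

section

variable {L F B : Type} [Field L] [Field F] [Field B] [Algebra ℂ L] [Algebra ℂ F] [Algebra L F]
  [Algebra ℂ B] [Algebra B L] [Algebra B F] [IsScalarTower ℂ B L] [IsScalarTower B L F]
  [IsScalarTower ℂ L F] [FiniteDimensional L F] {N q : ℕ} {β : Fin N → Fin q} {M : Fin q → ℕ}
  {x : Fin N → F} {ι : Type} {G : ι → F}

/-- **Ratios of traces, with one more coordinate.** -/
theorem ratios_snoc_rel (hG : SepSys β M x G) {n d : ℕ} (hL : Algebra.trdeg B L = (d + 1 : ℕ))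
    (hgen : IntermediateField.adjoin L (Set.range x) = ⊤)
    (hd : Algebra.trdeg B (IntermediateField.adjoin B (Set.range x)) = (d : ℕ))
    (hk : ∀ Λ : Finset (Fin q), Λ.Nonempty →
      2 * finrank (IntermediateField.adjoin L (x '' {j | β j ∉ Λ})) F ≤ ∑ b ∈ Λ, M b + 1)
    {u : F} (hu : ¬ IsAlgebraic (IntermediateField.adjoin B (Set.range x)) u)
    {h : F} (hh : h ≠ 0) {T : ι × Fin 2 → L}
    (hT : ∀ a, T a = Algebra.trace L F (G a.1 * u ^ (a.2 : ℕ) * h)) :
    ∃ s : Fin ((d + 1) + 1) → ι × Fin 2, T (s 0) ≠ 0 ∧
      AlgebraicIndependent B (fun i : Fin (d + 1) => T (s i.succ) / T (s 0)) := by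
  classical
  have hG' := sepSys_snoc hG u
  have hrange : Set.range (Fin.snoc (α := fun _ => F) x u : Fin (N + 1) → F) =
      insert u (Set.range x) := by
    ext z
    constructor
    · rintro ⟨j, rfl⟩
      refine Fin.lastCases ?_ (fun j => ?_) j
      · rw [Fin.snoc_last]
        exact Set.mem_insert _ _
      · rw [Fin.snoc_castSucc]
        exact Set.mem_insert_of_mem _ ⟨j, rfl⟩
    · rintro (rfl | ⟨j, rfl⟩)
      · exact ⟨Fin.last N, by rw [Fin.snoc_last]⟩
      · exact ⟨j.castSucc, by rw [Fin.snoc_castSucc]⟩
  have hgen' : IntermediateField.adjoin L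
      (Set.range (Fin.snoc (α := fun _ => F) x u : Fin (N + 1) → F)) = ⊤ := by
    rw [eq_top_iff, ← hgen, hrange]
    exact IntermediateField.adjoin.mono _ _ _ (Set.subset_insert _ _)
  have hF : Algebra.trdeg B F = (d + 1 : ℕ) := by
    rw [← trdeg_add_eq B L (A := F), trdeg_eq_zero (R := L) (A := F), add_zero, hL]
  have hd' : Algebra.trdeg B (IntermediateField.adjoin B
      (Set.range (Fin.snoc (α := fun _ => F) x u : Fin (N + 1) → F))) = ((d + 1 : ℕ) : Cardinal) := by
    rw [hrange]
    apply le_antisymm
    · rw [← hF]
      exact trdeg_le_of_injective (IntermediateField.adjoin B (insert u (Set.range x))).val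
        (Subtype.val_injective)
    · obtain ⟨b, hb⟩ := Pool.Agent.W636.PG.exists_basis B
        (IntermediateField.adjoin B (Set.range x)) d hd
      have h1 : AlgebraicIndependent B (fun i : Option (Fin d) => (i.elim u fun j => (b j : F))) := by
        have h2 : AlgebraicIndependent B fun j => (b j : F) :=
          hb.1.map' (f := (IntermediateField.adjoin B (Set.range x)).val) Subtype.val_injective
        refine (h2.option_iff_transcendental u).2 ?_
        intro h3
        apply hu
        have h4 : Algebra.adjoin B (Set.range fun j => (b j : F)) ≤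
            (IntermediateField.adjoin B (Set.range x)).toSubalgebra := by
          rw [Algebra.adjoin_le_iff]
          rintro _ ⟨j, rfl⟩
          exact (b j).2
        obtain ⟨p, hp0, hp⟩ := h3
        refine ⟨p.map (Subalgebra.inclusion h4).toRingHom, ?_, ?_⟩
        · exact (Polynomial.map_ne_zero_iff (Subalgebra.inclusion_injective h4)).2 hp0
        · rw [Polynomial.aeval_def, Polynomial.eval₂_map]
          exact hp
      have hmem : ∀ i : Option (Fin d), (i.elim u fun j => (b j : F)) ∈
          IntermediateField.adjoin B (insert u (Set.range x)) := by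
        intro i
        rcases i with _ | j
        · exact IntermediateField.subset_adjoin B _ (Set.mem_insert _ _)
        · exact IntermediateField.adjoin.mono B _ _ (Set.subset_insert u (Set.range x)) (b j).2
      have h5 : AlgebraicIndependent B (fun i : Option (Fin d) =>
          (⟨_, hmem i⟩ : IntermediateField.adjoin B (insert u (Set.range x)))) := by
        refine AlgebraicIndependent.of_comp
          (IntermediateField.adjoin B (insert u (Set.range x))).val ?_
        exact h1
      have h6 := h5.cardinalMk_le_trdeg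
      rw [Cardinal.mk_option, Cardinal.mk_fin] at h6
      push_cast
      exact h6
  refine ratios_rel (B := B) hG' (n := d + 1) (r := d + 1) hL hgen' hd' (fun Λ hΛ => ?_) le_rfl
    (fun Λ hΛ _ => deg_snoc hgen hk u Λ hΛ) hh hT
  have := deg_snoc hgen hk u Λ hΛ
  omega

end

end Pool.Agent.K4H25.RT
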