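import Pool.Agent.K4H25.RT.R10
import Pool.Agent.R882.LTr

/-!
Two traces which are not proportional.
-/

set_option autoImplicit false
set_option linter.unusedSectionVars false
set_option linter.overlappingInstances false
set_option maxHeartbeats 4000000
set_option synthInstance.maxHeartbeats 400000

open Module FF Pool.Agent.W602.GT Pool.Agent.W603.LV Pool.Agent.Y172
open Pool.Agent.Y184.NT (trForm trForm_pluri)
open Pool.Agent.R882.LT (SecAt TraceNe secAt_of trForm_regAt)

namespace Pool.Agent.K4H25.RT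

open Pool.Agent.K4H25.MG Pool.Agent.K4H25.PC

section

variable {K L E : Type} [Field K] [Field L] [Field E] [Algebra ℂ K] [Algebra ℂ L] [Algebra ℂ E]
  [Algebra L K] [IsScalarTower ℂ L K] [FiniteDimensional L K] [Algebra E L] [Algebra E K]
  [IsScalarTower ℂ E L] [IsScalarTower ℂ E K] [IsScalarTower E L K] {n e N q d : ℕ}
  {β : Fin N → Fin q} {M : Fin q → ℕ} {t : Fin N → K}

/-- **Two traces which are not proportional.** -/
theorem gt_rel [Algebra.EssFiniteType ℂ K] (hK : Algebra.trdeg ℂ K = n)
    {z : Fin e → E} {J : Type} {ω : J → (Fin n → Derivation ℂ K K) → K}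
    (hω : ∀ j, RelTwisted n z β M t (ω j))
    (hd : Algebra.trdeg E (IntermediateField.adjoin E (Set.range t)) = (d : ℕ))
    (hf : Algebra.trdeg E L = (d + 1 : ℕ))
    {y : Fin n → L} {Y : Fin n → Derivation ℂ L L} {Y' : Fin n → Derivation ℂ K K}
    (hy : IsTranscendenceBasis ℂ y) (hE : ∀ i j, Y i (y j) = if i = j then 1 else 0)
    (hE' : ∀ i f, Y' i (algebraMap L K f) = algebraMap L K (Y i f)) {j0 j1 : J}
    (hne : Algebra.trace (IntermediateField.adjoin L (Set.range t)) K (ω j0 Y') ≠ 0)
    {u : IntermediateField.adjoin L (Set.range t)}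
    (hu1 : Algebra.trace (IntermediateField.adjoin L (Set.range t)) K (ω j1 Y') =
      u * Algebra.trace (IntermediateField.adjoin L (Set.range t)) K (ω j0 Y'))
    (hu : ¬ IsAlgebraic (IntermediateField.adjoin E (Set.range t)) (u : K))
    (hm : ∀ Λ : Finset (Fin q), Λ.Nonempty → 2 * fdeg L β t Λ ≤ ∑ b ∈ Λ, M b + 1) :
    ∃ T : Fin (d + 1 + 1) → L, (∀ i, RelReg n z y (T i)) ∧ T 0 ≠ 0 ∧
      AlgebraicIndependent E (fun i : Fin (d + 1) => T i.succ / T 0) := by
  classical
  have hessL : Algebra.EssFiniteType ℂ L := Pool.Agent.TH466.QG.ess_below (K := K)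
  have hTow : IsScalarTower E (IntermediateField.adjoin L (Set.range t)) K :=
    IsScalarTower.of_algebraMap_eq fun r => rfl
  have hTow' : IsScalarTower E L (IntermediateField.adjoin L (Set.range t)) :=
    IsScalarTower.of_algebraMap_eq fun r => Subtype.ext (IsScalarTower.algebraMap_apply E L K r)
  obtain ⟨x', hx'⟩ : ∃ x' : Fin N → IntermediateField.adjoin L (Set.range t),
    ∀ j, (x' j : K) = t j :=
    ⟨fun j => ⟨t j, IntermediateField.subset_adjoin L _ ⟨j, rfl⟩⟩, fun _ => rfl⟩
  obtain ⟨G, hG⟩ : ∃ G : {a : Fin N → ℕ // ∀ b, ∑ j with β j = b, a j ≤ M b} →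
      IntermediateField.adjoin L (Set.range t), G = fun a => ∏ j, x' j ^ a.1 j := ⟨_, rfl⟩
  have hGt : ∀ a, (G a : K) = ∏ j, t j ^ a.1 j := by
    intro a
    rw [hG]
    have h5 := map_prod (IntermediateField.adjoin L (Set.range t)).val
      (fun j => x' j ^ a.1 j) Finset.univ
    refine h5.trans (Finset.prod_congr rfl fun j _ => ?_)
    rw [map_pow, ← hx' j]
    rfl
  have hsep : SepSys β M x' G := by
    rw [hG]
    exact Pool.Agent.K4H25.LF.sep_box β M x'
  obtain ⟨jj, hjj⟩ : ∃ jj : Fin 2 → J, jj = fun i => if i = 0 then j0 else j1 := ⟨_, rfl⟩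
  obtain ⟨T, hTdef⟩ : ∃ T : {a : Fin N → ℕ // ∀ b, ∑ j with β j = b, a j ≤ M b} × Fin 2 → L,
    ∀ a, T a = Algebra.trace L K ((G a.1 : K) * ω (jj a.2) Y') := ⟨_, fun _ => rfl⟩
  have hT : ∀ a, T a = Algebra.trace L (IntermediateField.adjoin L (Set.range t))
      (G a.1 * u ^ (a.2 : ℕ) *
        Algebra.trace (IntermediateField.adjoin L (Set.range t)) K (ω j0 Y')) := by
    intro a
    have h2 : (G a.1 : K) * ω (jj a.2) Y' = G a.1 • ω (jj a.2) Y' := by
      rw [Algebra.smul_def]
      rfl
    have h3 : Algebra.trace (IntermediateField.adjoin L (Set.range t)) K (ω (jj a.2) Y') =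
        u ^ (a.2 : ℕ) * Algebra.trace (IntermediateField.adjoin L (Set.range t)) K (ω j0 Y') := by
      obtain ⟨a1, a2⟩ := a
      rw [hjj]
      fin_cases a2
      · simp
      · simpa using hu1
    rw [hTdef, h2, ← Algebra.trace_trace (S := IntermediateField.adjoin L (Set.range t)),
      map_smul, smul_eq_mul, h3, mul_assoc]
  have hreg : ∀ a, RelReg n z y (T a) := by
    intro a
    rw [hTdef, hGt]
    exact relReg_trace hK (hω _) hy hE hE' a.1.2
  have hgen : IntermediateField.adjoin L (Set.range x') = ⊤ :=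
    Pool.Agent.R882.WR.gen_self x' hx'
  have hd' : Algebra.trdeg E (IntermediateField.adjoin E (Set.range x')) = (d : ℕ) := by
    have h1 := trdeg_map' (B := E) hx' Set.univ
    rw [Set.image_univ, Set.image_univ] at h1
    rw [h1]
    exact hd
  have hu' : ¬ IsAlgebraic (IntermediateField.adjoin E (Set.range x')) u := by
    intro h
    apply hu
    let φ : IntermediateField.adjoin L (Set.range t) →ₐ[E] K :=
      IsScalarTower.toAlgHom E (IntermediateField.adjoin L (Set.range t)) K
    have h1 : (IntermediateField.adjoin E (Set.range x')).map φ =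
        IntermediateField.adjoin E (Set.range t) := by
      rw [IntermediateField.adjoin_map]
      congr 1
      ext z
      constructor
      · rintro ⟨_, ⟨j, rfl⟩, rfl⟩
        exact ⟨j, (hx' j).symm⟩
      · rintro ⟨j, rfl⟩
        exact ⟨x' j, ⟨j, rfl⟩, hx' j⟩
    have hmem : ∀ z : IntermediateField.adjoin E (Set.range x'),
        ((z : IntermediateField.adjoin L (Set.range t)) : K) ∈
          IntermediateField.adjoin E (Set.range t) := by
      intro z
      rw [← h1]
      exact ⟨z, z.2, rfl⟩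
    let g : IntermediateField.adjoin E (Set.range x') →+* IntermediateField.adjoin E (Set.range t) :=
      { toFun := fun z => ⟨((z : IntermediateField.adjoin L (Set.range t)) : K), hmem z⟩
        map_one' := rfl
        map_mul' := fun _ _ => rfl
        map_zero' := rfl
        map_add' := fun _ _ => rfl }
    obtain ⟨p, hp0, hp⟩ := h
    refine ⟨p.map g, (Polynomial.map_ne_zero_iff g.injective).2 hp0, ?_⟩
    rw [Polynomial.aeval_def, Polynomial.eval₂_map]
    have h2 := congrArg (algebraMap (IntermediateField.adjoin L (Set.range t)) K) hp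
    rw [Polynomial.aeval_def, Polynomial.hom_eval₂, map_zero] at h2
    exact h2
  obtain ⟨s, hs0, hs⟩ := ratios_snoc_rel (n := n) (B := E) hsep hf hgen hd' (fun Λ hΛ => by
    rw [fdeg_eq hx']
    exact hm Λ hΛ) hu' hne hT
  exact ⟨fun i => T (s i), fun i => hreg _, hs0, hs⟩

end

end Pool.Agent.K4H25.RT
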