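import Pool.Agent.K4H25.RT.R11
import Pool.Agent.K4H25.RT.R12

/-!
The inequality of Iitaka for the images of families of fibrations by curves.
-/

set_option autoImplicit false
set_option linter.unusedSectionVars false
set_option linter.overlappingInstances false
set_option maxHeartbeats 4000000
set_option synthInstance.maxHeartbeats 400000

open Module FF Pool.Agent.W602.GT Pool.Agent.W603.LV Pool.Agent.Y172
open Pool.Agent.Y184.NT (trForm trForm_pluri)
open Pool.Agent.R882.LT (SecAt TraceNe secAt_of trForm_regAt)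
open Pool.Agent.W619.PQ (IsUniruled)

namespace Pool.Agent.K4H25.RT

open Pool.Agent.K4H25.MG Pool.Agent.K4H25.PC Pool.Agent.K4H62.IT

section

variable {K L : Type} [Field K] [Field L] [Algebra ℂ K] [Algebra ℂ L]
  [Algebra L K] [IsScalarTower ℂ L K] [FiniteDimensional L K]
  {n e N q d : ℕ} {β : Fin N → Fin q} {M : Fin q → ℕ} {t : Fin N → K}

/-- proportional traces, for all frames -/
theorem prop_frames [Algebra.EssFiniteType ℂ K] (hK : Algebra.trdeg ℂ K = (n + 1 : ℕ))
    {B : IntermediateField ℂ K} (hcl : ∀ g : K, IsAlgebraic B g → g ∈ B)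
    {J : Type} {ω : J → (Fin (n + 1) → Derivation ℂ K K) → K} (hω : ∀ j, IsPluri 1 (ω j))
    {z : Fin (n + 1) → L} {E : Fin (n + 1) → Derivation ℂ L L}
    {E' : Fin (n + 1) → Derivation ℂ K K} (hz : IsTranscendenceBasis ℂ z)
    (hE : ∀ i j, E i (z j) = if i = j then 1 else 0)
    (hE' : ∀ i f, E' i (algebraMap L K f) = algebraMap L K (E i f))
    {T : J → IntermediateField.adjoin L (Set.range t)}
    (hT : ∀ j, T j = Algebra.trace (IntermediateField.adjoin L (Set.range t)) K (ω j E'))
    (hgt : ∀ j0 j1, T j0 ≠ 0 → IsAlgebraic B ((T j1 / T j0 :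
      IntermediateField.adjoin L (Set.range t)) : K))
    (Ef : Fin (n + 1) → Derivation ℂ K K)
    (D0 : Fin (n + 1) → Derivation ℂ
        ((IntermediateField.adjoin L (Set.range t)).restrictScalars ℂ)
        ((IntermediateField.adjoin L (Set.range t)).restrictScalars ℂ))
    (hEf : ∀ i (z : (IntermediateField.adjoin L (Set.range t)).restrictScalars ℂ), Ef i (z : K) =
        ((D0 i z : (IntermediateField.adjoin L (Set.range t)).restrictScalars ℂ) : K)) :
    ∃ h0 : IntermediateField.adjoin L (Set.range t), ∀ j, ∃ b ∈ B,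
      ((Algebra.trace (IntermediateField.adjoin L (Set.range t)) K (ω j Ef) :
        IntermediateField.adjoin L (Set.range t)) : K) = b * (h0 : K) := by
  classical
  have hL : Algebra.trdeg ℂ L = (n + 1 : ℕ) := Pool.Agent.Y184.NT.trdeg_below (K := K) hK
  have hzK : IsTranscendenceBasis ℂ (fun j => algebraMap L K (z j)) := hz.algebraMap_comp
  have hE'd := Pool.Agent.Y172.lift_dual hE hE'
  obtain ⟨h0, hh0⟩ : ∃ h0 : IntermediateField.adjoin L (Set.range t), ∀ j,
      ∃ b ∈ B, ((T j : IntermediateField.adjoin L (Set.range t)) : K) = b * (h0 : K) := by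
    by_cases hall : ∃ j0, T j0 ≠ 0
    · obtain ⟨j0, hj0⟩ := hall
      refine ⟨T j0, fun j => ⟨_, hcl _ (hgt j0 j hj0), ?_⟩⟩
      have h1 : T j = T j / T j0 * T j0 := (div_mul_cancel₀ _ hj0).symm
      conv_lhs => rw [h1]
      rfl
    · push Not at hall
      exact ⟨0, fun j => ⟨0, zero_mem _, by rw [hall j]; simp⟩⟩
  have hLF : ∀ f : L, algebraMap L K f ∈
      (IntermediateField.adjoin L (Set.range t)).restrictScalars ℂ := fun f =>
    (IntermediateField.adjoin L (Set.range t)).algebraMap_mem f
  obtain ⟨δ, hδ⟩ : ∃ δ : (IntermediateField.adjoin L (Set.range t)).restrictScalars ℂ,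
    δ = (Matrix.of fun i j => D0 i ⟨algebraMap L K (z j), hLF _⟩ :
      Matrix (Fin (n + 1)) (Fin (n + 1)) ((IntermediateField.adjoin L
        (Set.range t)).restrictScalars ℂ)).det := ⟨_, rfl⟩
  obtain ⟨δ', hδ'⟩ : ∃ δ' : IntermediateField.adjoin L (Set.range t), (δ' : K) = (δ : K) :=
    ⟨⟨(δ : K), δ.2⟩, rfl⟩
  refine ⟨δ' * h0, fun j => ?_⟩
  obtain ⟨b, hb, hbT⟩ := hh0 j
  refine ⟨b, hb, ?_⟩
  have h2 : ω j Ef = δ' • ω j E' := by
    rw [Pool.Agent.Y172.pluri_coord hzK hE'd (hω j) Ef, pow_one, Algebra.smul_def]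
    change _ = (δ' : K) * _
    rw [hδ', hδ]
    congr 1
    have h3 : (((Matrix.of fun i j => D0 i ⟨algebraMap L K (z j), hLF _⟩ :
      Matrix (Fin (n + 1)) (Fin (n + 1)) ((IntermediateField.adjoin L
        (Set.range t)).restrictScalars ℂ)).det :
        (IntermediateField.adjoin L (Set.range t)).restrictScalars ℂ) : K) =
        algebraMap ((IntermediateField.adjoin L (Set.range t)).restrictScalars ℂ) K
        (Matrix.of fun i j => D0 i ⟨algebraMap L K (z j), hLF _⟩ :
      Matrix (Fin (n + 1)) (Fin (n + 1)) ((IntermediateField.adjoin L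
        (Set.range t)).restrictScalars ℂ)).det := rfl
    rw [h3, RingHom.map_det]
    congr 1
    ext i j
    rw [RingHom.mapMatrix_apply, Matrix.map_apply, Matrix.of_apply, Matrix.of_apply]
    exact hEf i ⟨algebraMap L K (z j), hLF _⟩
  rw [h2, map_smul, ← hT, smul_eq_mul]
  push_cast
  rw [hbT]
  ring

/-- If the traces are proportional and the generic fibre is of general type then the image is
uniruled. -/
theorem uniruled_prop [Algebra.EssFiniteType ℂ K] (hK : Algebra.trdeg ℂ K = (n + 1 : ℕ))
    {B : IntermediateField ℂ K} (hB : Algebra.trdeg ℂ B = n)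
    (hcl : ∀ g : K, IsAlgebraic B g → g ∈ B)
    (hleB : B ≤ (IntermediateField.adjoin L (Set.range t)).restrictScalars ℂ)
    {J : Type} [Finite J] {ω : J → (Fin (n + 1) → Derivation ℂ K K) → K}
    (hspan : Pool.Agent.K4H25.LP.SpanFibL B (fun _ => False) ω)
    (h3 : ∀ (Ef : Fin (n + 1) → Derivation ℂ K K)
      (D0 : Fin (n + 1) → Derivation ℂ
        ((IntermediateField.adjoin L (Set.range t)).restrictScalars ℂ)
        ((IntermediateField.adjoin L (Set.range t)).restrictScalars ℂ)),
      (∀ i (z : (IntermediateField.adjoin L (Set.range t)).restrictScalars ℂ), Ef i (z : K) =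
        ((D0 i z : (IntermediateField.adjoin L (Set.range t)).restrictScalars ℂ) : K)) →
      ∃ h0 : IntermediateField.adjoin L (Set.range t), ∀ j, ∃ b ∈ B,
        ((Algebra.trace (IntermediateField.adjoin L (Set.range t)) K (ω j Ef) :
          IntermediateField.adjoin L (Set.range t)) : K) = b * (h0 : K))
    {E : IntermediateField ℂ L} [hessE : Algebra.EssFiniteType ℂ E] {f : ℕ}
    (hdE : Algebra.trdeg ℂ E = e) (hf' : Algebra.trdeg E L = f)
    (hEB : ∀ x : E, algebraMap L K (x : L) ∈ B)
    (h2 : KodGe E L f (fun _ => False) f) : IsUniruled ℂ L (n + 1) := by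
  classical
  obtain ⟨E', hE'⟩ : ∃ E' : IntermediateField B K,
      E' = IntermediateField.extendScalars hleB := ⟨_, rfl⟩
  have hE'r : E'.restrictScalars ℂ =
      (IntermediateField.adjoin L (Set.range t)).restrictScalars ℂ := by
    rw [hE']
    exact IntermediateField.extendScalars_restrictScalars hleB
  have hmemE' : ∀ z : K, z ∈ E' ↔ z ∈ IntermediateField.adjoin L (Set.range t) := by
    intro z
    rw [hE']
    exact Iff.rfl
  have hfinE : FiniteDimensional E' K := by
    have h1 : FiniteDimensional (IntermediateField.adjoin L (Set.range t)) K := inferInstance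
    rw [hE']
    exact h1
  let ψ : L →+* E' :=
    { toFun := fun g => ⟨algebraMap L K g, (hmemE' _).2
        ((IntermediateField.adjoin L (Set.range t)).algebraMap_mem g)⟩
      map_one' := Subtype.ext (map_one _)
      map_mul' := fun a b => Subtype.ext (map_mul _ _ _)
      map_zero' := Subtype.ext (map_zero _)
      map_add' := fun a b => Subtype.ext (map_add _ _ _) }
  let iL : Algebra L E' := ψ.toAlgebra
  have tL : IsScalarTower ℂ L E' := IsScalarTower.of_algebraMap_eq fun c => by
    apply Subtype.ext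
    change algebraMap ℂ K c = algebraMap L K (algebraMap ℂ L c)
    rw [← IsScalarTower.algebraMap_apply ℂ L K]
  have tK : IsScalarTower L E' K := IsScalarTower.of_algebraMap_eq fun c => rfl
  have hfinL : FiniteDimensional L E' := by
    have : Module.Finite L K := inferInstance
    exact Module.Finite.of_injective (IsScalarTower.toAlgHom L E' K).toLinearMap
      (algebraMap E' K).injective
  have huni : IsUniruled ℂ (E'.restrictScalars ℂ) (n + 1) := by
    refine prop_geo' hK B hB hcl E' ω hspan (fun D0 Ef hEf => ?_) E hdE hf' (fun x => ?_)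
      (tr_of_kodGe h2)
    · obtain ⟨h0, hh0⟩ : ∃ h0 : IntermediateField.adjoin L (Set.range t), ∀ j,
        ∃ b ∈ B, ((Algebra.trace (IntermediateField.adjoin L (Set.range t)) K (ω j Ef) :
            IntermediateField.adjoin L (Set.range t)) : K) = b * (h0 : K) := by
        have hc : ∀ (X : IntermediateField ℂ K) (hX : X =
            (IntermediateField.adjoin L (Set.range t)).restrictScalars ℂ)
            (D0 : Fin (n + 1) → Derivation ℂ X X),
            (∀ i (z : X), Ef i (z : K) = ((D0 i z : X) : K)) →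
            ∃ h0 : IntermediateField.adjoin L (Set.range t), ∀ j, ∃ b ∈ B,
                ((Algebra.trace (IntermediateField.adjoin L (Set.range t)) K (ω j Ef) :
                  IntermediateField.adjoin L (Set.range t)) : K) = b * (h0 : K) := by
          intro X hX D0 hD0
          subst hX
          exact h3 Ef D0 hD0
        exact hc _ hE'r D0 hEf
      refine ⟨⟨(h0 : K), (hmemE' _).2 h0.2⟩, fun j => ?_⟩
      obtain ⟨b, hb, hbj⟩ := hh0 j
      refine ⟨⟨b, hb⟩, ?_⟩
      apply Subtype.ext
      change ((Algebra.trace E' K (ω j Ef) : E') : K) = b * (h0 : K)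
      rw [← hbj]
      subst hE'
      rfl
    · have h4 : IsAlgebraic B (algebraMap E' K (algebraMap L E' (x : L))) := by
        have h5 : algebraMap E' K (algebraMap L E' (x : L)) = algebraMap B K ⟨_, hEB x⟩ := rfl
        rw [h5]
        exact isAlgebraic_algebraMap _
      exact (isAlgebraic_algebraMap_iff (R := B) (algebraMap E' K).injective).1 h4
  rw [hE'r] at huni
  obtain ⟨C, i1, i2, hC, htr, ⟨χ⟩⟩ := huni
  let φ : L →ₐ[ℂ] ((IntermediateField.adjoin L (Set.range t)).restrictScalars ℂ :
      IntermediateField ℂ K) :=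
    { toFun := fun g => ⟨algebraMap L K g,
        (IntermediateField.adjoin L (Set.range t)).algebraMap_mem g⟩
      map_one' := Subtype.ext (map_one _)
      map_mul' := fun a b => Subtype.ext (map_mul _ _ _)
      map_zero' := Subtype.ext (map_zero _)
      map_add' := fun a b => Subtype.ext (map_add _ _ _)
      commutes' := fun c => Subtype.ext (IsScalarTower.algebraMap_apply ℂ L K c).symm }
  exact ⟨C, i1, i2, hC, htr, ⟨χ.comp φ⟩⟩

end

end Pool.Agent.K4H25.RT
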