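import Pool.Agent.W828.PG.DIVI
import Pool.Agent.K4H25.RT.R1

/-!
The place of a subfield under a divisorial place is divisorial.
-/

set_option autoImplicit false
set_option linter.unusedSectionVars false
set_option linter.overlappingInstances false
set_option maxHeartbeats 4000000

open Module FF Pool.Agent.W602.GT

namespace Pool.Agent.K4H25.RT

open Pool.Agent.W828.PG (red_sum reg_pow red_aeval)

theorem trdeg_res {k K L : Type} [Field k] [Field K] [Field L] [Algebra k K] [Algebra k L]
    [Algebra K L] [IsScalarTower k K L] {v : Place k K} {w : Place k L} {e : ℕ}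
    (hov : Over w v e) :
    Algebra.trdeg k w.RF ≤ Algebra.trdeg k v.RF + Algebra.trdeg K L := by
  classical
  let _ : Algebra v.RF w.RF := hov.resMap.toRingHom.toAlgebra
  have hmap : ∀ a : v.RF, algebraMap v.RF w.RF a = hov.resMap a := fun a => rfl
  have : IsScalarTower k v.RF w.RF := IsScalarTower.of_algebraMap_eq fun c => by
    rw [hmap]
    exact (hov.resMap.commutes c).symm
  obtain ⟨s, hs⟩ := exists_isTranscendenceBasis v.RF w.RF
  choose z hz1 hz2 using fun i : s => w.red_surjective (i : w.RF)
  have hred := red_aeval w z hz1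
  have hind : AlgebraicIndependent K z := by
    rw [algebraicIndependent_iff]
    intro p hp
    by_contra hp0
    obtain ⟨j, hj, hmin⟩ := Finset.exists_min_image p.support (fun i => v.ord (p.coeff i))
      (MvPolynomial.support_nonempty.2 hp0)
    have hj0 : p.coeff j ≠ 0 := MvPolynomial.mem_support_iff.1 hj
    have hq : ∀ i, v.Reg (p.coeff i / p.coeff j) := by
      intro i
      by_cases hi : p.coeff i = 0
      · rw [hi, zero_div]; exact v.reg_zero
      · right
        rw [v.ord_div hi hj0]
        have := hmin i (MvPolynomial.mem_support_iff.2 hi)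
        linarith
    obtain ⟨Q, hQ⟩ : ∃ Q : MvPolynomial s v.RF, Q = ∑ i ∈ p.support,
      MvPolynomial.monomial i (v.red (p.coeff i / p.coeff j)) := ⟨_, rfl⟩
    have h1 : Q.coeff j = 1 := by
      rw [hQ, MvPolynomial.coeff_sum]
      simp only [MvPolynomial.coeff_monomial]
      rw [Finset.sum_ite_eq' p.support j, if_pos hj, div_self hj0, v.red_one]
    have hmon : ∀ i : s →₀ ℕ, MvPolynomial.aeval z (MvPolynomial.monomial i (1 : k)) =
        i.prod fun l m => z l ^ m := by
      intro i
      rw [MvPolynomial.aeval_monomial, map_one, one_mul]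
    have hmon' : ∀ i : s →₀ ℕ, MvPolynomial.aeval (fun l => w.red (z l))
        (MvPolynomial.monomial i (1 : k)) = i.prod fun l m => (l : w.RF) ^ m := by
      intro i
      rw [MvPolynomial.aeval_monomial, map_one, one_mul]
      simp only [hz2]
    have h2 : MvPolynomial.aeval (fun l : s => (l : w.RF)) Q = ∑ i ∈ p.support,
        w.red (algebraMap K L (p.coeff i / p.coeff j) *
          MvPolynomial.aeval z (MvPolynomial.monomial i (1 : k))) := by
      rw [hQ, map_sum]
      refine Finset.sum_congr rfl fun i _ => ?_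
      rw [MvPolynomial.aeval_monomial, hmap, hov.resMap_red (hq i),
        w.red_mul (hov.reg.2 (hq i)) (hred _).1, (hred _).2, hmon']
    have h3 := red_sum w p.support
      (fun i => algebraMap K L (p.coeff i / p.coeff j) *
          MvPolynomial.aeval z (MvPolynomial.monomial i (1 : k)))
      (fun i _ => w.reg_mul (hov.reg.2 (hq i)) (hred _).1)
    have h4 : ∑ i ∈ p.support, algebraMap K L (p.coeff i / p.coeff j) *
        MvPolynomial.aeval z (MvPolynomial.monomial i (1 : k)) = 0 := by
      have h5 : ∑ i ∈ p.support, algebraMap K L (p.coeff i / p.coeff j) *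
          MvPolynomial.aeval z (MvPolynomial.monomial i (1 : k))
          = (algebraMap K L (p.coeff j))⁻¹ * MvPolynomial.aeval z p := by
        have h8 : MvPolynomial.aeval z p = ∑ i ∈ p.support,
            algebraMap K L (p.coeff i) * i.prod fun l m => z l ^ m := by
          conv_lhs => rw [MvPolynomial.as_sum p, map_sum]
          refine Finset.sum_congr rfl fun i _ => ?_
          rw [MvPolynomial.aeval_monomial]
        rw [h8, Finset.mul_sum]
        refine Finset.sum_congr rfl fun i _ => ?_
        rw [hmon, map_div₀]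
        ring
      rw [h5, hp, mul_zero]
    rw [← h3.2, h4, w.red_zero] at h2
    have h6 : Q = 0 := (algebraicIndependent_iff.1 hs.1) Q h2
    rw [h6, MvPolynomial.coeff_zero] at h1
    exact zero_ne_one h1
  have h7 : Algebra.trdeg v.RF w.RF ≤ Algebra.trdeg K L := by
    rw [← hs.cardinalMk_eq_trdeg]
    exact hind.cardinalMk_le_trdeg
  rw [← trdeg_add_eq k v.RF (A := w.RF)]
  exact add_le_add le_rfl h7

/-- **The place under a divisorial place.** -/
theorem div_below {k K L : Type} [Field k] [Field K] [Field L] [Algebra k K] [Algebra k L]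
    [Algebra K L] [IsScalarTower k K L] {v : Place k K} {w : Place k L} {e : ℕ}
    (hov : Over w v e) {n d : ℕ} (hL : Algebra.trdeg k L = n) (hK : Algebra.trdeg k K = d)
    (hw : Divisorial n w) : Divisorial d v := by
  classical
  obtain ⟨y, hy⟩ := hw
  have hyr : ∀ i, w.Reg (y i) := by
    intro i
    have h := hy (MvPolynomial.X i) (MvPolynomial.X_ne_zero i)
    rw [MvPolynomial.aeval_X] at h
    exact Or.inr h.2.ge
  have hc : AlgebraicIndependent k (fun i => w.red (y i)) := by
    rw [algebraicIndependent_iff]
    intro p hp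
    by_contra hp0
    have h := hy p hp0
    have h2 := red_aeval w y hyr p
    exact w.red_ne_zero h.1 h.2 (h2.2.trans hp)
  have h1 : ((n - 1 : ℕ) : Cardinal) ≤ Algebra.trdeg k w.RF := by
    have := hc.lift_cardinalMk_le_trdeg
    simpa using this
  have hsum : Algebra.trdeg k K + Algebra.trdeg K L = n := by rw [trdeg_add_eq, hL]
  obtain ⟨f, hf⟩ : ∃ f : ℕ, Algebra.trdeg K L = f := by
    have h2 : Algebra.trdeg K L ≤ n := by
      rw [← hsum]
      exact self_le_add_left _ _
    exact (Cardinal.lt_aleph0.1 (h2.trans_lt Cardinal.natCast_lt_aleph0))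
  have hdf : d + f = n := by
    rw [hK, hf] at hsum
    exact_mod_cast hsum
  have h2 := trdeg_res hov
  obtain ⟨s, hs⟩ := exists_isTranscendenceBasis k v.RF
  have h3 : ((d - 1 : ℕ) : Cardinal) ≤ Cardinal.mk s := by
    rw [hs.cardinalMk_eq_trdeg]
    rcases le_or_gt Cardinal.aleph0 (Algebra.trdeg k v.RF) with h4 | h4
    · exact Cardinal.natCast_lt_aleph0.le.trans h4
    · obtain ⟨r, hr⟩ := Cardinal.lt_aleph0.1 h4
      rw [hr, hf] at h2
      rw [hr]
      have h5 : n - 1 ≤ r + f := by exact_mod_cast h1.trans h2
      exact_mod_cast (by omega : d - 1 ≤ r)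
  have h4 : Nonempty (Fin (d - 1) ↪ s) := by
    rw [← Cardinal.lift_mk_le']
    simpa using h3
  obtain ⟨g⟩ := h4
  have hd : AlgebraicIndependent k (fun i : Fin (d - 1) => ((g i : s) : v.RF)) :=
    hs.1.comp g g.injective
  choose z hz1 hz2 using fun i : Fin (d - 1) => v.red_surjective ((g i : s) : v.RF)
  refine ⟨z, fun p hp => ?_⟩
  have h5 := red_aeval v z hz1 p
  have h6 : v.red (MvPolynomial.aeval z p) ≠ 0 := by
    rw [h5.2]
    intro h7
    apply hp
    refine (algebraicIndependent_iff.1 hd) p ?_
    rw [← h7]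
    congr 2
    funext i
    exact (hz2 i).symm
  have h8 : MvPolynomial.aeval z p ≠ 0 := by
    intro h9
    rw [h9, v.red_zero] at h6
    exact h6 rfl
  refine ⟨h8, ?_⟩
  have h9 : ¬ (0 < v.ord (MvPolynomial.aeval z p)) := fun h =>
    h6 ((v.red_eq_zero_iff h5.1).2 (Or.inr h))
  have h10 := (v.reg_iff h8).1 h5.1
  omega

end Pool.Agent.K4H25.RT
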