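import Pool.Agent.K4H25.RT.R2

/-!
Pluricanonical forms on the total space of a fibration: products of the traces of relative forms
and of pluricanonical forms on the base.
-/

set_option autoImplicit false
set_option linter.unusedSectionVars false
set_option linter.overlappingInstances false
set_option maxHeartbeats 4000000
set_option synthInstance.maxHeartbeats 400000

open Module FF Pool.Agent.W602.GT Pool.Agent.W603.LV Pool.Agent.Y172
open Pool.Agent.Y184.NT (trForm trForm_pluri)
open Pool.Agent.R882.LT (SecAt TraceNe secAt_of trForm_regAt)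

namespace Pool.Agent.K4H25.RT

open Pool.Agent.K4H25.MG Pool.Agent.K4H25.PC

/-- the form `c (dy) ^ m` -/
noncomputable def pForm {K : Type} [Field K] [Algebra ℂ K] {n : ℕ} (m : ℕ) (y : Fin n → K) (c : K)
    (D : Fin n → Derivation ℂ K K) : K :=
  (Matrix.of fun i j => D i (y j) : Matrix (Fin n) (Fin n) K).det ^ m * c

theorem pForm_pluri {K : Type} [Field K] [Algebra ℂ K] {n : ℕ} (m : ℕ) (y : Fin n → K) (c : K) :
    IsPluri m (pForm m y c) := by
  intro A D
  have h1 := trForm_pluri y (1 : K) A D
  rw [trForm, trForm, mul_one, mul_one, pow_one] at h1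
  rw [pForm, pForm, h1, mul_pow]
  ring

theorem pForm_dual {K : Type} [Field K] [Algebra ℂ K] {n : ℕ} {m : ℕ} {y : Fin n → K} {c : K}
    {E : Fin n → Derivation ℂ K K} (hE : ∀ i j, E i (y j) = if i = j then 1 else 0) :
    pForm m y c E = c := by
  have h1 : (Matrix.of fun i j => E i (y j) : Matrix (Fin n) (Fin n) K) = 1 := by
    ext i j
    rw [Matrix.of_apply, hE, Matrix.one_apply]
  rw [pForm, h1, Matrix.det_one, one_pow, one_mul]

theorem trForm_eq {K : Type} [Field K] [Algebra ℂ K] {n : ℕ} (y : Fin n → K) (c : K)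
    (D : Fin n → Derivation ℂ K K) : trForm y c D = pForm 1 y c D := by
  rw [trForm, pForm, pow_one]

section

variable {L E : Type} [Field L] [Field E] [Algebra ℂ L] [Algebra ℂ E] [Algebra E L]
  [IsScalarTower ℂ E L] {n e : ℕ}

/-- The relative form with the coefficient `T` in the basis `y` of the total space and `z` of the
base is regular. -/
def RelReg (n : ℕ) (z : Fin e → E) (y : Fin n → L) (T : L) : Prop :=
  ∀ (g : E) (P : Place ℂ L), Divisorial n P →
    (∀ (R : Place ℂ E) (c : ℕ), Over P R c → RegAt R (trForm z g)) →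
      RegAt P (trForm y (algebraMap E L g * T))

/-- the product of relative forms and of a pluricanonical form on the base -/
theorem prod_reg [Algebra.EssFiniteType ℂ E] (hL : Algebra.trdeg ℂ L = n)
    (hE : Algebra.trdeg ℂ E = e) {z : Fin e → E} (hz : IsTranscendenceBasis ℂ z)
    {y : Fin n → L} {m : ℕ} {b : E}
    (hb : ∀ R : Place ℂ E, Divisorial e R → RegAt R (pForm m z b)) {T : Fin m → L}
    (hT : ∀ k, RelReg n z y (T k)) (P : Place ℂ L) (hP : Divisorial n P) :
    RegAt P (pForm m y (algebraMap E L b * ∏ k, T k)) := by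
  classical
  -- a multiple `g ^ m` of the form on the base
  obtain ⟨g, c, hg, hc, hbc⟩ : ∃ g c : E,
      (∀ (R : Place ℂ E) (a : ℕ), Over P R a → RegAt R (trForm z g)) ∧
      P.Reg (algebraMap E L c) ∧ b = c * g ^ m := by
    by_cases htriv : ∃ f : E, P.ord (algebraMap E L f) ≠ 0
    · obtain ⟨a, R, hR⟩ := exists_over P htriv
      have hRd : Divisorial e R := div_below hR hL hE hP
      obtain ⟨u, U, i0, hl⟩ := exists_loc hE hRd
      obtain ⟨δ, hδ⟩ : ∃ δ : E, δ = (Matrix.of fun i j => U i (z j) :
        Matrix (Fin e) (Fin e) E).det := ⟨_, rfl⟩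
      have hδ0 : δ ≠ 0 := by
        intro h0
        have h1 := pluri_coord (k := ℂ) hz (E := fun i => (exists_der _ hz
          fun j => if i = j then (1 : E) else 0).choose)
          (fun i j => (exists_der _ hz fun j => if i = j then (1 : E) else 0).choose_spec j)
          (trForm_pluri u (1 : E)) U
        rw [← hδ, h0, pow_one, zero_mul, trForm_eq, pForm_dual hl.dual] at h1
        exact one_ne_zero h1
      refine ⟨δ⁻¹, δ ^ m * b, ?_, ?_, ?_⟩
      · intro R' a' hR'
        obtain ⟨rfl, -⟩ := over_unique' hR hR'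
        intro D hD
        have h1 := loc_ge hl (trForm_pluri z δ⁻¹) hD
        have h2 : trForm z δ⁻¹ U = 1 := by
          rw [trForm, ← hδ, mul_inv_cancel₀ hδ0]
        rw [h2, R.ord_one] at h1
        exact h1
      · have h1 := hb R hRd U hl.pres
        rw [pForm, ← hδ] at h1
        exact hR.reg.2 h1
      · rw [mul_comm (δ ^ m) b, mul_assoc, ← mul_pow, mul_inv_cancel₀ hδ0, one_pow, mul_one]
    · push Not at htriv
      refine ⟨1, b, fun R a hR => ?_, ?_, by rw [one_pow, mul_one]⟩
      · exfalso
        obtain ⟨f, -, hf⟩ := R.surj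
        have h1 := hR.2 f
        rw [htriv, hf] at h1
        have h2 := hR.1
        omega
      · by_cases h0 : algebraMap E L b = 0
        · exact Or.inl h0
        · exact Or.inr (htriv b).ge
  intro D hD
  have h1 : pForm m y (algebraMap E L b * ∏ k, T k) D =
      algebraMap E L c * ∏ k : Fin m, trForm y (algebraMap E L g * T k) D := by
    simp only [trForm]
    rw [pForm, Finset.prod_mul_distrib, Finset.prod_mul_distrib, Finset.prod_const,
      Finset.card_univ, Fintype.card_fin, Finset.prod_const, Finset.card_univ, Fintype.card_fin,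
      hbc, map_mul, map_pow]
    ring
  rw [h1]
  refine P.reg_mul hc ?_
  have h2 : ∀ s : Finset (Fin m), P.Reg (∏ k ∈ s, trForm y (algebraMap E L g * T k) D) := by
    intro s
    induction s using Finset.induction_on with
    | empty => rw [Finset.prod_empty]; exact P.reg_one
    | insert a s ha ih =>
      rw [Finset.prod_insert ha]
      exact P.reg_mul (hT a g P hP hg D hD) ih
  exact h2 _

/-- **Subadditivity from relative forms.** -/
theorem kod_rel [Algebra.EssFiniteType ℂ E] (hL : Algebra.trdeg ℂ L = n)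
    (hE : Algebra.trdeg ℂ E = e) {z : Fin e → E} (hz : IsTranscendenceBasis ℂ z)
    {y : Fin n → L} {Y : Fin n → Derivation ℂ L L} (hY : ∀ i j, Y i (y j) = if i = j then 1 else 0)
    {r : ℕ} {T : Fin (r + 1) → L} (hT : ∀ i, RelReg n z y (T i)) (hT0 : T 0 ≠ 0)
    (hind : AlgebraicIndependent E (fun i : Fin r => T i.succ / T 0)) {p : ℕ}
    (hκ : KodGe ℂ E e (fun _ => False) p) : KodGe ℂ L n (fun _ => False) (r + p) := by
  classical
  obtain ⟨m, hm, η, hη, D, hD, hηind⟩ := hκ
  choose Z hZ using fun i : Fin e => exists_der _ hz fun j => if i = j then (1 : E) else 0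
  obtain ⟨b, hb⟩ : ∃ b : Fin (p + 1) → E, ∀ j, b j = η j Z := ⟨_, fun _ => rfl⟩
  obtain ⟨δ, hδ⟩ : ∃ δ : E, δ = (Matrix.of fun i j => D i (z j) :
    Matrix (Fin e) (Fin e) E).det := ⟨_, rfl⟩
  have hηb : ∀ j D', η j D' = pForm m z (b j) D' := fun j D' => by
    rw [hb]
    exact pluri_coord hz hZ (hη j).1 D'
  have hbreg : ∀ j (R : Place ℂ E), Divisorial e R → RegAt R (pForm m z (b j)) := by
    intro j R hR
    have h1 := (hη j).2.2 R hR fun h => h
    intro D' hD'
    rw [← hηb]
    exact h1 D' hD'
  have hb0 : b 0 ≠ 0 := by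
    intro h0
    apply hD
    rw [hηb, pForm, h0, mul_zero]
  have hδ0 : δ ^ m ≠ 0 := by
    intro h0
    apply hD
    rw [hηb, pForm, ← hδ, h0, zero_mul]
  have hratio : ∀ i : Fin p, η i.succ D / η 0 D = b i.succ / b 0 := by
    intro i
    rw [hηb, hηb, pForm, pForm, ← hδ, mul_div_mul_left _ _ hδ0]
  simp only [hratio] at hηind
  obtain ⟨m', rfl⟩ : ∃ m', m = m' + 1 := ⟨m - 1, by omega⟩
  -- the sections
  obtain ⟨c, hc⟩ : ∃ c : Fin (r + p + 1) → L, c = Fin.cons (algebraMap E L (b 0) * T 0 ^ (m' + 1))
    (Fin.append (fun i : Fin r => algebraMap E L (b 0) * (T i.succ * T 0 ^ m'))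
      (fun j : Fin p => algebraMap E L (b j.succ) * T 0 ^ (m' + 1))) := ⟨_, rfl⟩
  have hreg : ∀ i (P : Place ℂ L), Divisorial n P → RegAt P (pForm (m' + 1) y (c i)) := by
    intro i P hP
    have h1 : ∀ (j : Fin (p + 1)) (s : Fin (r + 1)),
        RegAt P (pForm (m' + 1) y (algebraMap E L (b j) * (T s * T 0 ^ m'))) := by
      intro j s
      have h2 := prod_reg (z := z) (y := y) hL hE hz (hbreg j)
        (T := Fin.cons (T s) fun _ : Fin m' => T 0) (fun k => by
          refine Fin.cases ?_ (fun k => ?_) k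
          · rw [Fin.cons_zero]; exact hT s
          · rw [Fin.cons_succ]; exact hT 0) P hP
      rw [Fin.prod_univ_succ, Fin.cons_zero] at h2
      simp only [Fin.cons_succ, Finset.prod_const, Finset.card_univ, Fintype.card_fin] at h2
      exact h2
    have h3 : ∀ j : Fin (p + 1),
        RegAt P (pForm (m' + 1) y (algebraMap E L (b j) * T 0 ^ (m' + 1))) := by
      intro j
      have h4 := h1 j 0
      rwa [← pow_succ'] at h4
    rw [hc]
    refine Fin.cases ?_ (fun i => ?_) i
    · rw [Fin.cons_zero]
      exact h3 0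
    · rw [Fin.cons_succ]
      refine Fin.addCases (fun i => ?_) (fun j => ?_) i
      · rw [Fin.append_left]
        exact h1 0 i.succ
      · rw [Fin.append_right]
        exact h3 j.succ
  have hT0' : T 0 ^ (m' + 1) ≠ 0 := pow_ne_zero _ hT0
  have hb0' : algebraMap E L (b 0) ≠ 0 := by
    rw [Ne, map_eq_zero]
    exact hb0
  have hc0 : c 0 ≠ 0 := by
    rw [hc, Fin.cons_zero]
    exact mul_ne_zero hb0' hT0'
  refine ⟨m' + 1, hm, fun i => pForm (m' + 1) y (c i), fun i => ⟨pForm_pluri _ _ _,
    fun P hP => (secAt_of (hreg i P hP)).1, fun P hP _ => hreg i P hP⟩, Y, ?_, ?_⟩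
  · change pForm (m' + 1) y (c 0) Y ≠ 0
    rw [pForm_dual hY]
    exact hc0
  · have h1 := hηind.sumElim_comp hind
    have h2 := (h1.comp _ (finSumFinEquiv (m := r) (n := p)).symm.injective)
    convert h2 using 1
    funext i
    change pForm (m' + 1) y (c i.succ) Y / pForm (m' + 1) y (c 0) Y = _
    rw [pForm_dual hY, pForm_dual hY, hc, Fin.cons_zero, Fin.cons_succ, Function.comp_apply]
    refine Fin.addCases (fun i => ?_) (fun j => ?_) i
    · rw [Fin.append_left, finSumFinEquiv_symm_apply_castAdd, Sum.elim_inl,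
        mul_div_mul_left _ _ hb0', pow_succ', mul_div_mul_right _ _ (pow_ne_zero _ hT0)]
    · rw [Fin.append_right, finSumFinEquiv_symm_apply_natAdd, Sum.elim_inr, Function.comp_apply,
        mul_div_mul_right _ _ hT0', map_div₀]

end

end Pool.Agent.K4H25.RT
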