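import Pool.Agent.K4H25.RT.R3

/-!
Traces of twisted relative forms.
-/

set_option autoImplicit false
set_option linter.unusedSectionVars false
set_option linter.overlappingInstances false
set_option maxHeartbeats 4000000
set_option synthInstance.maxHeartbeats 400000

open Module FF Pool.Agent.W602.GT Pool.Agent.W603.LV Pool.Agent.Y172
open Pool.Agent.Y184.NT (trForm trForm_pluri)
open Pool.Agent.R882.LT (SecAt TraceNe secAt_of trForm_regAt)

namespace Pool.Agent.K4H25.RT

open Pool.Agent.K4H25.MG Pool.Agent.K4H25.PC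

/-- `ω = τ ∧ dz` for a section `τ` of `K_{V/Y} - ∑ M p H p`: for all divisorial places `Q` of `K` and
all `g` such that the form `g dz` on `Y` is regular at the place of `E` under `Q`, the forms
`g t ^ a ω` with `t ^ a` of degree at most `M p` in the block `p` are regular at `Q`. -/
def RelTwisted {K E : Type} [Field K] [Field E] [Algebra ℂ K] [Algebra ℂ E] [Algebra E K]
    [IsScalarTower ℂ E K] {N q e : ℕ} (n : ℕ) (z : Fin e → E) (β : Fin N → Fin q)
    (M : Fin q → ℕ) (t : Fin N → K) (ω : (Fin n → Derivation ℂ K K) → K) : Prop :=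
  IsPluri 1 ω ∧ ∀ a : Fin N → ℕ, (∀ b, ∑ j with β j = b, a j ≤ M b) →
    ∀ (g : E) (Q : Place ℂ K), Divisorial n Q →
      (∀ (R : Place ℂ E) (c : ℕ), Over Q R c → RegAt R (trForm z g)) →
        RegAt Q (fun D => algebraMap E K g * ((∏ j, t j ^ a j) * ω D))

section

variable {K L E : Type} [Field K] [Field L] [Field E] [Algebra ℂ K] [Algebra ℂ L] [Algebra ℂ E]
  [Algebra L K] [IsScalarTower ℂ L K] [FiniteDimensional L K] [Algebra E L] [Algebra E K]
  [IsScalarTower ℂ E L] [IsScalarTower ℂ E K] [IsScalarTower E L K] {n e N q d : ℕ}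
  {β : Fin N → Fin q} {M : Fin q → ℕ} {t : Fin N → K}

/-- **Traces of twisted relative forms.** -/
theorem core_rel [Algebra.EssFiniteType ℂ K] (hK : Algebra.trdeg ℂ K = n)
    {z : Fin e → E} {ω : (Fin n → Derivation ℂ K K) → K} (hω : RelTwisted n z β M t ω)
    (htn : TraceNe ω ((IntermediateField.adjoin L (Set.range t)).restrictScalars ℂ))
    (hd : Algebra.trdeg E (IntermediateField.adjoin E (Set.range t)) = (d : ℕ))
    (hm : ∀ Λ : Finset (Fin q), Λ.Nonempty → fdeg L β t Λ ≤ ∑ b ∈ Λ, M b + 1) {r : ℕ} (hr : r ≤ d)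
    (hk : ∀ Λ : Finset (Fin q), Λ.Nonempty →
        Algebra.trdeg E (IntermediateField.adjoin E (t '' {j | β j ∉ Λ})) < (r : ℕ) →
        2 * fdeg L β t Λ ≤ ∑ b ∈ Λ, M b + 1) :
    ∃ (y : Fin n → L) (Y : Fin n → Derivation ℂ L L) (T : Fin (r + 1) → L),
      (∀ i j, Y i (y j) = if i = j then 1 else 0) ∧ (∀ i, RelReg n z y (T i)) ∧ T 0 ≠ 0 ∧
      AlgebraicIndependent E (fun i : Fin r => T i.succ / T 0) := by
  classical
  have hessL : Algebra.EssFiniteType ℂ L := Pool.Agent.TH466.QG.ess_below (K := K)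
  have hL : Algebra.trdeg ℂ L = n := Pool.Agent.Y184.NT.trdeg_below (K := K) hK
  have hcL : CharZero L := charZero_of_injective_algebraMap (algebraMap ℂ L).injective
  obtain ⟨x, y, Y, Y', -, -, hadj, -, hy, hE, hE', hne⟩ := core_red' hK hω.1 htn
  rw [hadj] at hne
  have hTow : IsScalarTower E (IntermediateField.adjoin L (Set.range t)) K :=
    IsScalarTower.of_algebraMap_eq fun r => rfl
  have hTow' : IsScalarTower E L (IntermediateField.adjoin L (Set.range t)) :=
    IsScalarTower.of_algebraMap_eq fun r => Subtype.ext (IsScalarTower.algebraMap_apply E L K r)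
  have hTowC : IsScalarTower ℂ (IntermediateField.adjoin L (Set.range t)) K :=
    IsScalarTower.of_algebraMap_eq fun r => rfl
  obtain ⟨x', hx'⟩ : ∃ x' : Fin N → IntermediateField.adjoin L (Set.range t),
    ∀ j, (x' j : K) = t j :=
    ⟨fun j => ⟨t j, IntermediateField.subset_adjoin L _ ⟨j, rfl⟩⟩, fun _ => rfl⟩
  obtain ⟨G, hG⟩ : ∃ G : {a : Fin N → ℕ // ∀ b, ∑ j with β j = b, a j ≤ M b} →
      IntermediateField.adjoin L (Set.range t), G = fun a => ∏ j, x' j ^ a.1 j := ⟨_, rfl⟩
  have hGt : ∀ a, (G a : K) = ∏ j, t j ^ a.1 j := by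
    intro a
    rw [hG]
    have h5 := map_prod (IntermediateField.adjoin L (Set.range t)).val
      (fun j => x' j ^ a.1 j) Finset.univ
    refine h5.trans (Finset.prod_congr rfl fun j _ => ?_)
    rw [map_pow, ← hx' j]
    rfl
  have hsep : SepSys β M x' G := by
    rw [hG]
    exact Pool.Agent.K4H25.LF.sep_box β M x'
  obtain ⟨T, hTdef⟩ : ∃ T : {a : Fin N → ℕ // ∀ b, ∑ j with β j = b, a j ≤ M b} → L,
    ∀ a, T a = Algebra.trace L K ((G a : K) * ω Y') := ⟨_, fun _ => rfl⟩
  have hT : ∀ a, T a = Algebra.trace L (IntermediateField.adjoin L (Set.range t))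
      (G a * Algebra.trace (IntermediateField.adjoin L (Set.range t)) K (ω Y')) := by
    intro a
    have h2 : (G a : K) * ω Y' = G a • ω Y' := by
      rw [Algebra.smul_def]
      rfl
    rw [hTdef, h2, ← Algebra.trace_trace (S := IntermediateField.adjoin L (Set.range t)),
      map_smul, smul_eq_mul]
  have hreg : ∀ a, RelReg n z y (T a) := by
    intro a g P hP hR
    have hW : IsPluri 1 (fun D : Fin n → Derivation ℂ K K =>
        algebraMap E K g * ((∏ j, t j ^ a.1 j) * ω D)) := by
      intro A D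
      change algebraMap E K g * ((∏ j, t j ^ a.1 j) * ω (fun i => ∑ j, A i j • D j)) = _
      rw [hω.1 A D]
      ring
    have h1 := trForm_regAt hL hy hE hE' _ hW P hP fun Q c hQ => by
      refine hω.2 a.1 a.2 g Q (divisorial_up hQ hP) fun R c' hR' => ?_
      -- the place `R` is the place under `P`
      have h2 : ∃ f : E, P.ord (algebraMap E L f) ≠ 0 := by
        obtain ⟨f, -, hf⟩ := R.surj
        refine ⟨f, fun h0 => ?_⟩
        have h3 := hR'.2 f
        rw [IsScalarTower.algebraMap_apply E L K, hQ.2, h0, hf] at h3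
        have h4 := hR'.1
        omega
      obtain ⟨a0, R0, hR0⟩ := exists_over P h2
      have h5 : Over Q R0 (c * a0) := by
        refine ⟨Nat.mul_pos hQ.1 hR0.1, fun f => ?_⟩
        rw [IsScalarTower.algebraMap_apply E L K, hQ.2, hR0.2]
        push_cast
        ring
      obtain ⟨rfl, -⟩ := over_unique' h5 hR'
      exact hR _ _ hR0
    have h6 : Algebra.trace L K (algebraMap E K g * ((∏ j, t j ^ a.1 j) * ω Y')) =
        algebraMap E L g * T a := by
      rw [hTdef, hGt, IsScalarTower.algebraMap_apply E L K, ← Algebra.smul_def, map_smul,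
        smul_eq_mul]
    rw [h6] at h1
    exact h1
  have hgen : IntermediateField.adjoin L (Set.range x') = ⊤ :=
    Pool.Agent.R882.WR.gen_self x' hx'
  have hd' : Algebra.trdeg E (IntermediateField.adjoin E (Set.range x')) = (d : ℕ) := by
    have h1 := trdeg_map' (B := E) hx' Set.univ
    rw [Set.image_univ, Set.image_univ] at h1
    rw [h1]
    exact hd
  obtain ⟨f', hf'⟩ : ∃ f' : ℕ, Algebra.trdeg E L = f' := by
    have h2 : Algebra.trdeg E L ≤ n := by
      rw [← hL, ← trdeg_add_eq ℂ E (A := L)]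
      exact self_le_add_left _ _
    exact (Cardinal.lt_aleph0.1 (h2.trans_lt Cardinal.natCast_lt_aleph0))
  obtain ⟨s, hs0, hs⟩ := ratios_rel (B := E) hsep hf' hgen hd' (fun Λ hΛ => by
      rw [fdeg_eq hx']
      exact hm Λ hΛ) hr (fun Λ hΛ hΛr => by
      rw [trdeg_map' (B := E) hx'] at hΛr
      rw [fdeg_eq hx']
      exact hk Λ hΛ hΛr) hne hT
  exact ⟨y, Y, fun i => T (s i), hE, fun i => hreg _, hs0, hs⟩

end

end Pool.Agent.K4H25.RT
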