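import Pool.Agent.K4H25.RT.R4

/-!
Pull-back of pluricanonical forms, and ratios which are independent over the base, for degrees up
to the degree of the forms.
-/

set_option autoImplicit false
set_option linter.unusedSectionVars false
set_option linter.overlappingInstances false
set_option maxHeartbeats 4000000
set_option synthInstance.maxHeartbeats 400000

open Module FF Pool.Agent.W602.GT Pool.Agent.W603.LV Pool.Agent.Y172

namespace Pool.Agent.K4H25.RT

section

variable {k K L : Type} [Field k] [CharZero k] [Field K] [Field L] [Algebra k K] [Algebra k L]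
  [Algebra K L] [IsScalarTower k K L] [FiniteDimensional K L] {n : ℕ}

/-- The Kodaira dimension of the image is at most the Kodaira dimension. -/
theorem kodGe_up [Algebra.EssFiniteType k K] (hn : Algebra.trdeg k K = n) {h : ℕ}
    (hk : KodGe k K n (fun _ => False) h) : KodGe k L n (fun _ => False) h := by
  classical
  obtain ⟨m, hm, ω, hω, D, hD, hind⟩ := hk
  obtain ⟨y, E, hy, hE⟩ := exists_crd hn
  choose E' hE' using fun i => exists_lift (L := L) hn (E i)
  have hyL : IsTranscendenceBasis k (fun j => algebraMap K L (y j)) := hy.algebraMap_comp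
  have hE'd := lift_dual hE hE'
  obtain ⟨θ, hθ⟩ : ∃ θ : Fin (h + 1) → (Fin n → Derivation k L L) → L, θ = fun j D =>
    (Matrix.of fun a b => D a (algebraMap K L (y b)) : Matrix (Fin n) (Fin n) L).det ^ m *
      algebraMap K L (ω j E) := ⟨_, rfl⟩
  have hpl : ∀ j, IsPluri m (θ j) := by
    intro j A D
    rw [hθ]
    have e1 : (Matrix.of fun a b => (∑ l, A a l • D l) (algebraMap K L (y b)) :
        Matrix (Fin n) (Fin n) L) =
        A * (Matrix.of fun a b => D a (algebraMap K L (y b)) : Matrix (Fin n) (Fin n) L) := by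
      ext a b
      rw [Matrix.of_apply, Matrix.mul_apply, Pool.Agent.Y172.sum_smul_apply]
      rfl
    change (Matrix.of fun a b => (∑ l, A a l • D l) (algebraMap K L (y b))).det ^ m * _ = _
    rw [e1, Matrix.det_mul, mul_pow, mul_assoc]
  have hval : ∀ j, θ j E' = algebraMap K L (ω j E) := by
    intro j
    have h1 : (Matrix.of fun a b => E' a (algebraMap K L (y b)) : Matrix (Fin n) (Fin n) L) = 1 := by
      ext a b
      rw [Matrix.of_apply, hE'd, Matrix.one_apply]
    rw [hθ]
    change (Matrix.of fun a b => E' a (algebraMap K L (y b)) :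
      Matrix (Fin n) (Fin n) L).det ^ m * _ = _
    rw [h1, Matrix.det_one, one_pow, one_mul]
  have hreg : ∀ j (Q : Place k L), Divisorial n Q → RegAt Q (θ j) := by
    intro j Q hQ G hG
    obtain ⟨P, e, hov⟩ := exists_below (K := K) Q
    have hP := divisorial_down hov hQ
    obtain ⟨yP, EP, i0, hl⟩ := exists_loc hn hP
    choose EP' hEP' using fun i => exists_lift (L := L) hn (EP i)
    have hyP : IsTranscendenceBasis k (fun j => algebraMap K L (yP j)) := hl.bas.algebraMap_comp
    have h1 := pluri_coord hyP (lift_dual hl.dual hEP') (hpl j) G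
    have h2 : θ j EP' = algebraMap K L (ω j EP) := by
      rw [hθ]
      change (Matrix.of fun a b => EP' a (algebraMap K L (y b)) :
        Matrix (Fin n) (Fin n) L).det ^ m * _ = _
      rw [pluri_coord hy hE (hω j).1 EP, map_mul, map_pow]
      congr 2
      rw [RingHom.map_det]
      congr 1
      ext a b
      rw [Matrix.of_apply, hEP']
      rfl
    rw [h1, h2]
    have h3 : Ge P 0 (ω j EP) := (hω j).2.2 P hP (fun h => h) EP hl.pres
    have h4 := pull_reg hov hl hG (m := m) (ω := ω j) h3
    have he : (1 : ℤ) ≤ e := by exact_mod_cast hov.1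
    have h5 : (0 : ℤ) ≤ m * ((e : ℤ) - 1) + e * 0 := by
      rw [mul_zero, add_zero]
      exact mul_nonneg (by positivity) (by omega)
    exact h4.mono h5
  have h0 : ω 0 E ≠ 0 := by
    intro h0
    apply hD
    rw [pluri_coord hy hE (hω 0).1 D, h0, mul_zero]
  have hδ : (Matrix.of fun i j => D i (y j) : Matrix (Fin n) (Fin n) K).det ^ m ≠ 0 := by
    intro h1
    apply hD
    rw [pluri_coord hy hE (hω 0).1 D, h1, zero_mul]
  refine ⟨m, hm, θ, fun j => ⟨hpl j, fun Q hQ G hG =>
    hreg j Q hQ G fun i f hf => Pool.Agent.Y172.DerLog.ge (hG i) (N := 0) hf, fun Q hQ _ => hreg j Q hQ⟩,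
    E', ?_, ?_⟩
  · rw [hval, Ne, map_eq_zero]
    exact h0
  · have h1 := (AlgHom.algebraicIndependent_iff (IsScalarTower.toAlgHom k K L)
      (algebraMap K L).injective).2 hind
    convert h1 using 1
    funext i
    rw [hval, hval, Function.comp_apply]
    change _ = algebraMap K L _
    rw [← map_div₀, pluri_coord hy hE (hω i.succ).1 D, pluri_coord hy hE (hω 0).1 D,
      mul_div_mul_left _ _ hδ]

end

end Pool.Agent.K4H25.RT
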