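import Pool.Agent.K4H25.RT.R5

/-!
Ratios which are independent over the base, for degrees up to the degree of the forms.
-/

set_option autoImplicit false
set_option linter.unusedSectionVars false
set_option linter.overlappingInstances false
set_option maxHeartbeats 4000000
set_option synthInstance.maxHeartbeats 400000

open Module FF Pool.Agent.W602.GT Pool.Agent.W603.LV Pool.Agent.Y172

namespace Pool.Agent.K4H25.RT

/-- Algebraically independent ratios, one less than the number of independent coordinates. -/
theorem ratios_line_rel {E L F : Type} [Field E] [Field L] [Field F] [Algebra ℂ E] [Algebra ℂ L]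
    [Algebra ℂ F] [Algebra E L] [Algebra E F] [Algebra L F] [IsScalarTower ℂ E F]
    [IsScalarTower E L F] {f' d N : ℕ} (hF : Algebra.trdeg E F = f') {x : Fin N → F}
    (hd : Algebra.trdeg E (IntermediateField.adjoin E (Set.range x)) = (d + 1 : ℕ)) {ι : Type}
    (T : ι → L) {f0 : ι} (hf0 : T f0 ≠ 0) {i0 : Fin N}
    (hC : ∀ D' : Derivation ℂ F F, (∀ g, D' (algebraMap L F (T g / T f0)) = 0) →
      D' (x i0) = 0 → ∀ j, D' (x j) = 0) :
    ∃ s : Fin (d + 1) → ι, T (s 0) ≠ 0 ∧
      AlgebraicIndependent E (fun i : Fin d => T (s i.succ) / T (s 0)) := by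
  classical
  have hcE : CharZero E := charZero_of_injective_algebraMap (algebraMap ℂ E).injective
  have hfinite : ∀ A : IntermediateField E F, ∃ e : ℕ, Algebra.trdeg E A = e := by
    intro A
    have h1 : Algebra.trdeg E A ≤ f' := by
      rw [← hF]
      exact trdeg_le_of_injective A.val A.val.toRingHom.injective
    obtain ⟨e, h2⟩ := Cardinal.lt_aleph0.1 (h1.trans_lt Cardinal.natCast_lt_aleph0)
    exact ⟨e, h2⟩
  obtain ⟨R, hR⟩ : ∃ R : Set F, R = Set.range fun g => algebraMap L F (T g / T f0) := ⟨_, rfl⟩
  obtain ⟨e, he⟩ := hfinite (IntermediateField.adjoin E R)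
  obtain ⟨tt, htt, hind, halg⟩ := Pool.Agent.R885.exists_mono_basis he
  obtain ⟨v, hv⟩ : ∃ v : Fin (e + 1) → F, v = Fin.cons (x i0) tt := ⟨_, rfl⟩
  have hx : ∀ j, x j ∈ acl E (Set.range v) := by
    intro j
    by_contra hj
    obtain ⟨D, hD, hDj⟩ := exists_der_ne (acl_closed (Set.range v)) hj
    have h1 := hC (D.restrictScalars ℂ) (fun g => by
      refine hD _ ?_
      refine (acl_closed (Set.range v)).mem_of_le (F := IntermediateField.adjoin E (Set.range tt))
        ?_ (halg _ (by rw [hR]; exact ⟨g, rfl⟩))
      refine (IntermediateField.adjoin.mono _ _ _ ?_).trans (adjoin_le_acl (Set.range v))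
      rintro _ ⟨i, rfl⟩
      exact ⟨i.succ, by rw [hv, Fin.cons_succ]⟩) (by
      refine hD _ (subset_acl _ ⟨0, ?_⟩)
      rw [hv, Fin.cons_zero]) j
    change D (x j) = 0 at h1
    rw [h1] at hDj
    exact zero_ne_one hDj
  have hde : d ≤ e := by
    have h1 : Algebra.trdeg E (IntermediateField.adjoin E (Set.range x)) ≤
        Algebra.trdeg E (IntermediateField.adjoin E (Set.range v)) := by
      refine trdeg_le_of_alg' (B := E) (E := IntermediateField.adjoin E (Set.range v)) ?_
      rintro _ ⟨j, rfl⟩
      exact mem_acl.1 (hx j)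
    obtain ⟨D, hD⟩ := hfinite (IntermediateField.adjoin E (Set.range v))
    obtain ⟨u, hu, huind, -⟩ := Pool.Agent.R885.exists_mono_basis hD
    choose φ hφ using hu
    have h2 : Function.Injective φ := by
      intro a b hab
      apply huind.injective
      rw [← hφ, ← hφ, hab]
    have h3 := Fintype.card_le_of_injective φ h2
    rw [Fintype.card_fin, Fintype.card_fin] at h3
    rw [hd, hD] at h1
    have h4 : d + 1 ≤ D := by exact_mod_cast h1
    omega
  have htt' : ∀ i : Fin e, ∃ a : ι, algebraMap L F (T a / T f0) = tt i := by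
    intro i
    have h1 := htt i
    rw [hR] at h1
    exact h1
  choose a hta using htt'
  refine ⟨Fin.cons f0 fun i => a (Fin.castLE hde i), ?_, ?_⟩
  · rw [Fin.cons_zero]
    exact hf0
  · have h1 : AlgebraicIndependent E fun i : Fin d => tt (Fin.castLE hde i) :=
      hind.comp _ (Fin.castLE_injective hde)
    have h2 : AlgebraicIndependent E (IsScalarTower.toAlgHom E L F ∘ fun i : Fin d =>
        T (a (Fin.castLE hde i)) / T f0) := by
      convert h1 using 1
      funext i
      exact hta _
    have h3 := (AlgHom.algebraicIndependent_iff (IsScalarTower.toAlgHom E L F)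
      (algebraMap L F).injective).1 h2
    convert h3 using 1
    funext i
    rw [Fin.cons_succ, Fin.cons_zero]

end Pool.Agent.K4H25.RT
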