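import Pool.Agent.K4H25.RT.R6

/-!
Subadditivity of the Kodaira dimension from twisted relative forms.
-/

set_option autoImplicit false
set_option linter.unusedSectionVars false
set_option linter.overlappingInstances false
set_option maxHeartbeats 4000000
set_option synthInstance.maxHeartbeats 400000

open Module FF Pool.Agent.W602.GT Pool.Agent.W603.LV Pool.Agent.Y172
open Pool.Agent.Y184.NT (trForm trForm_pluri)
open Pool.Agent.R882.LT (SecAt TraceNe secAt_of trForm_regAt)

namespace Pool.Agent.K4H25.RT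

open Pool.Agent.K4H25.MG Pool.Agent.K4H25.PC

section

variable {K L E : Type} [Field K] [Field L] [Field E] [Algebra ℂ K] [Algebra ℂ L] [Algebra ℂ E]
  [Algebra L K] [IsScalarTower ℂ L K] [FiniteDimensional L K] [Algebra E L] [Algebra E K]
  [IsScalarTower ℂ E L] [IsScalarTower ℂ E K] [IsScalarTower E L K] {n e N q d : ℕ}
  {β : Fin N → Fin q} {M : Fin q → ℕ} {t : Fin N → K}

/-- the trace of a twisted relative form is a relative form -/
theorem relReg_trace [Algebra.EssFiniteType ℂ K] (hK : Algebra.trdeg ℂ K = n)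
    {z : Fin e → E} {ω : (Fin n → Derivation ℂ K K) → K} (hω : RelTwisted n z β M t ω)
    {y : Fin n → L} {Y : Fin n → Derivation ℂ L L} {Y' : Fin n → Derivation ℂ K K}
    (hy : IsTranscendenceBasis ℂ y) (hE : ∀ i j, Y i (y j) = if i = j then 1 else 0)
    (hE' : ∀ i f, Y' i (algebraMap L K f) = algebraMap L K (Y i f)) {a : Fin N → ℕ}
    (ha : ∀ b, ∑ j with β j = b, a j ≤ M b) :
    RelReg n z y (Algebra.trace L K ((∏ j, t j ^ a j) * ω Y')) := by
  classical
  have hessL : Algebra.EssFiniteType ℂ L := Pool.Agent.TH466.QG.ess_below (K := K)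
  have hL : Algebra.trdeg ℂ L = n := Pool.Agent.Y184.NT.trdeg_below (K := K) hK
  intro g P hP hR
  have hW : IsPluri 1 (fun D : Fin n → Derivation ℂ K K =>
      algebraMap E K g * ((∏ j, t j ^ a j) * ω D)) := by
    intro A D
    change algebraMap E K g * ((∏ j, t j ^ a j) * ω (fun i => ∑ j, A i j • D j)) = _
    rw [hω.1 A D]
    ring
  have h1 := trForm_regAt hL hy hE hE' _ hW P hP fun Q c hQ => by
    refine hω.2 a ha g Q (divisorial_up hQ hP) fun R c' hR' => ?_
    have h2 : ∃ f : E, P.ord (algebraMap E L f) ≠ 0 := by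
      obtain ⟨f, -, hf⟩ := R.surj
      refine ⟨f, fun h0 => ?_⟩
      have h3 := hR'.2 f
      rw [IsScalarTower.algebraMap_apply E L K, hQ.2, h0, hf] at h3
      have h4 := hR'.1
      omega
    obtain ⟨a0, R0, hR0⟩ := exists_over P h2
    have h5 : Over Q R0 (c * a0) := by
      refine ⟨Nat.mul_pos hQ.1 hR0.1, fun f => ?_⟩
      rw [IsScalarTower.algebraMap_apply E L K, hQ.2, hR0.2]
      push_cast
      ring
    obtain ⟨rfl, -⟩ := over_unique' h5 hR'
    exact hR _ _ hR0
  have h6 : Algebra.trace L K (algebraMap E K g * ((∏ j, t j ^ a j) * ω Y')) =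
      algebraMap E L g * Algebra.trace L K ((∏ j, t j ^ a j) * ω Y') := by
    rw [IsScalarTower.algebraMap_apply E L K, ← Algebra.smul_def, map_smul, smul_eq_mul]
  rw [h6] at h1
  exact h1

/-- **Traces of twisted relative forms**, for degrees up to the degree of the forms. -/
theorem core_line_rel [Algebra.EssFiniteType ℂ K] (hK : Algebra.trdeg ℂ K = n)
    {z : Fin e → E} {ω : (Fin n → Derivation ℂ K K) → K} (hω : RelTwisted n z β M t ω)
    (htn : TraceNe ω ((IntermediateField.adjoin L (Set.range t)).restrictScalars ℂ))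
    (hd : Algebra.trdeg E (IntermediateField.adjoin E (Set.range t)) = (d + 1 : ℕ)) {m : ℕ}
    (hm1 : 1 ≤ m) (hm : finrank L (IntermediateField.adjoin L (Set.range t)) ≤ m)
    (hmM : ∀ b, m ≤ M b) :
    ∃ (y : Fin n → L) (Y : Fin n → Derivation ℂ L L) (T : Fin (d + 1) → L),
      (∀ i j, Y i (y j) = if i = j then 1 else 0) ∧ (∀ i, RelReg n z y (T i)) ∧ T 0 ≠ 0 ∧
      AlgebraicIndependent E (fun i : Fin d => T i.succ / T 0) := by
  classical
  have hessL : Algebra.EssFiniteType ℂ L := Pool.Agent.TH466.QG.ess_below (K := K)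
  have hL : Algebra.trdeg ℂ L = n := Pool.Agent.Y184.NT.trdeg_below (K := K) hK
  obtain ⟨x, y, Y, Y', hx0, hxt, hadj, -, hy, hE, hE', hne⟩ := core_red' hK hω.1 htn
  rw [← hadj] at hm
  have hxc : x = Fin.cons 1 t := by
    funext i
    refine Fin.cases ?_ (fun j => ?_) i
    · rw [hx0, Fin.cons_zero]
    · rw [hxt, Fin.cons_succ]
  have hTow : IsScalarTower E (IntermediateField.adjoin L (Set.range x)) K :=
    IsScalarTower.of_algebraMap_eq fun r => rfl
  have hTow' : IsScalarTower E L (IntermediateField.adjoin L (Set.range x)) :=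
    IsScalarTower.of_algebraMap_eq fun r => Subtype.ext (IsScalarTower.algebraMap_apply E L K r)
  have hTowC : IsScalarTower ℂ (IntermediateField.adjoin L (Set.range x)) K :=
    IsScalarTower.of_algebraMap_eq fun r => rfl
  have hTowE : IsScalarTower ℂ E (IntermediateField.adjoin L (Set.range x)) :=
    IsScalarTower.of_algebraMap_eq fun r => Subtype.ext (IsScalarTower.algebraMap_apply ℂ E K r)
  obtain ⟨x', hx'⟩ : ∃ x' : Fin (N + 1) → IntermediateField.adjoin L (Set.range x),
    ∀ j, (x' j : K) = x j :=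
    ⟨fun j => ⟨x j, IntermediateField.subset_adjoin L _ ⟨j, rfl⟩⟩, fun _ => rfl⟩
  have hx'0 : x' 0 = 1 := by
    apply Subtype.ext
    rw [hx', hx0]
    rfl
  have hgen : IntermediateField.adjoin L (Set.range x') = ⊤ :=
    Pool.Agent.R882.WR.gen_self x' hx'
  obtain ⟨T, hTdef⟩ : ∃ T : (Fin m → Fin (N + 1)) → L,
    ∀ f, T f = Algebra.trace L K ((∏ k, x (f k)) * ω Y') := ⟨_, fun _ => rfl⟩
  have hT : ∀ f, T f = Algebra.trace L (IntermediateField.adjoin L (Set.range x))
      ((∏ k, x' (f k)) * Algebra.trace (IntermediateField.adjoin L (Set.range x)) K (ω Y')) := by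
    intro f
    have h2 : (∏ k, x (f k)) * ω Y' = (∏ k, x' (f k)) • ω Y' := by
      rw [Algebra.smul_def]
      congr 1
      rw [map_prod]
      exact Finset.prod_congr rfl fun k _ => (hx' _).symm
    rw [hTdef, h2, ← Algebra.trace_trace (S := IntermediateField.adjoin L (Set.range x)),
      map_smul, smul_eq_mul]
  have hreg : ∀ f, RelReg n z y (T f) := by
    intro f
    rw [hTdef, hxc, Pool.Agent.R882.LT.prod_cons]
    refine relReg_trace hK hω hy hE hE' fun b => ?_
    have h1 : ∑ j : Fin (N + 1), (Finset.univ.filter fun k => f k = j).card = m := by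
      rw [Finset.sum_card_fiberwise_eq_card_filter]
      simp
    rw [Fin.sum_univ_succ] at h1
    have h2 : ∑ j with β j = b, (Finset.univ.filter fun k => f k = Fin.succ j).card ≤
        ∑ j : Fin N, (Finset.univ.filter fun k => f k = Fin.succ j).card :=
      Finset.sum_le_sum_of_subset (Finset.filter_subset _ _)
    have h3 := hmM b
    omega
  have hT0 : ∃ f, T f ≠ 0 := by
    by_contra hcon
    push Not at hcon
    have hcL : CharZero L := charZero_of_injective_algebraMap (algebraMap ℂ L).injective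
    have h1 := (Pool.Agent.Y614.NT.stLine Pool.Agent.Y153.NT.stCB L
      (IntermediateField.adjoin L (Set.range x)) (N + 1) m x' 0 hx'0 hgen _ hne
      (fun f => by rw [← hT, hcon]) (by omega)).1
    omega
  obtain ⟨f0, hf0⟩ := hT0
  obtain ⟨i0, hi0⟩ := Pool.Agent.K4H25.AB.exists_coord (L := L)
    (K := IntermediateField.adjoin L (Set.range x)) Pool.Agent.Y141.NT.stCB2 hx'0 hgen hm1 hm hne
    hT hf0
  have hrange : Set.range x = insert 1 (Set.range t) := by
    rw [hxc, Fin.range_cons]
  have hd' : Algebra.trdeg E (IntermediateField.adjoin E (Set.range x')) = (d + 1 : ℕ) := by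
    have h1 := trdeg_map' (B := E) hx' Set.univ
    rw [Set.image_univ, Set.image_univ] at h1
    have h2 : IntermediateField.adjoin E (Set.range x) =
        IntermediateField.adjoin E (Set.range t) := by
      rw [hrange]
      apply le_antisymm
      · rw [IntermediateField.adjoin_le_iff]
        rintro y (rfl | hy)
        · exact one_mem _
        · exact IntermediateField.subset_adjoin _ _ hy
      · exact IntermediateField.adjoin.mono _ _ _ (Set.subset_insert _ _)
    rw [h1, h2]
    exact hd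
  obtain ⟨f', hf'⟩ : ∃ f' : ℕ, Algebra.trdeg E
      (IntermediateField.adjoin L (Set.range x)) = f' := by
    have h2 : Algebra.trdeg E (IntermediateField.adjoin L (Set.range x)) ≤ n := by
      rw [← hK, ← trdeg_add_eq ℂ E (A := K)]
      refine le_trans ?_ (self_le_add_left _ _)
      exact trdeg_le_of_injective (IsScalarTower.toAlgHom E
        (IntermediateField.adjoin L (Set.range x)) K)
        (algebraMap (IntermediateField.adjoin L (Set.range x)) K).injective
    exact (Cardinal.lt_aleph0.1 (h2.trans_lt Cardinal.natCast_lt_aleph0))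
  obtain ⟨s, hs0, hs⟩ := ratios_line_rel (E := E) hf' hd' T hf0 hi0
  exact ⟨y, Y, fun i => T (s i), hE, fun i => hreg _, hs0, hs⟩

/-- **Subadditivity.** -/
theorem main_rel [Algebra.EssFiniteType ℂ K] [Algebra.EssFiniteType ℂ E]
    (hK : Algebra.trdeg ℂ K = n) (hE : Algebra.trdeg ℂ E = e)
    {z : Fin e → E} (hz : IsTranscendenceBasis ℂ z)
    {ω : (Fin n → Derivation ℂ K K) → K} (hω : RelTwisted n z β M t ω)
    (htn : TraceNe ω ((IntermediateField.adjoin L (Set.range t)).restrictScalars ℂ))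
    (hd : Algebra.trdeg E (IntermediateField.adjoin E (Set.range t)) = (d : ℕ)) {p : ℕ}
    (hY : KodGe ℂ E e (fun _ => False) p) :
    ((∀ Λ : Finset (Fin q), Λ.Nonempty → fdeg L β t Λ ≤ 1 + ∑ b ∈ Λ, M b) →
      ∀ r : ℕ, r ≤ d →
        (∀ Λ : Finset (Fin q), Λ.Nonempty →
          Algebra.trdeg E (IntermediateField.adjoin E (t '' {j | β j ∉ Λ})) < (r : ℕ) →
          2 * fdeg L β t Λ ≤ 1 + ∑ b ∈ Λ, M b) →
        KodGe ℂ L n (fun _ => False) (r + p)) ∧
    ((∀ b, finrank L (IntermediateField.adjoin L (Set.range t)) ≤ M b) →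
      KodGe ℂ L n (fun _ => False) (d - 1 + p)) := by
  classical
  have hL : Algebra.trdeg ℂ L = n := Pool.Agent.Y184.NT.trdeg_below (K := K) hK
  have h1 : (∀ Λ : Finset (Fin q), Λ.Nonempty → fdeg L β t Λ ≤ 1 + ∑ b ∈ Λ, M b) →
      ∀ r : ℕ, r ≤ d →
        (∀ Λ : Finset (Fin q), Λ.Nonempty →
          Algebra.trdeg E (IntermediateField.adjoin E (t '' {j | β j ∉ Λ})) < (r : ℕ) →
          2 * fdeg L β t Λ ≤ 1 + ∑ b ∈ Λ, M b) →
        KodGe ℂ L n (fun _ => False) (r + p) := fun hm r hr hk => by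
    obtain ⟨y, Y, T, h2, h3, h4, h5⟩ := core_rel hK hω htn hd
      (fun Λ hΛ => (hm Λ hΛ).trans_eq (add_comm _ _)) hr
      fun Λ hΛ hlt => (hk Λ hΛ hlt).trans_eq (add_comm _ _)
    exact kod_rel hL hE hz h2 h3 h4 h5 hY
  refine ⟨h1, fun hm => ?_⟩
  rcases Nat.eq_zero_or_pos d with hd0 | hd0
  · subst hd0
    refine h1 (fun Λ hΛ => ?_) 0 le_rfl fun Λ hΛ hlt => ?_
    · obtain ⟨b, hb⟩ := hΛ
      have h2 : fdeg L β t Λ ≤ finrank L (IntermediateField.adjoin L (Set.range t)) := fdeg_le Λ
      have h3 : M b ≤ ∑ b ∈ Λ, M b := Finset.single_le_sum (f := M) (fun _ _ => Nat.zero_le _) hb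
      have h4 := hm b
      omega
    · exfalso
      rw [Nat.cast_zero] at hlt
      exact absurd hlt (not_lt.2 zero_le)
  · obtain ⟨d', rfl⟩ : ∃ d', d = d' + 1 := ⟨d - 1, by omega⟩
    have hpos : 0 < finrank L (IntermediateField.adjoin L (Set.range t)) := finrank_pos
    obtain ⟨y, Y, T, h2, h3, h4, h5⟩ := core_line_rel (m := finrank L
      (IntermediateField.adjoin L (Set.range t))) hK hω htn hd hpos le_rfl hm
    exact kod_rel hL hE hz h2 h3 h4 h5 hY

end

end Pool.Agent.K4H25.RT
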