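import Pool.Agent.K4H25.RT.R7
import Pool.Agent.K4H25.LP.Full
import Pool.Agent.R882.UC

/-!
Subadditivity of the Kodaira dimension for the images of families of fibrations by curves.
-/

set_option autoImplicit false
set_option linter.unusedSectionVars false
set_option linter.overlappingInstances false
set_option maxHeartbeats 4000000
set_option synthInstance.maxHeartbeats 400000

open Module FF Pool.Agent.W602.GT Pool.Agent.W603.LV Pool.Agent.Y172
open Pool.Agent.R882.LT (SecAt TraceNe secAt_of trForm_regAt)
open Pool.Agent.W619.PQ (IsUniruled)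

namespace Pool.Agent.K4H25.RT

open Pool.Agent.K4H25.MG Pool.Agent.K4H25.PC

section

variable {K L E : Type} [Field K] [Field L] [Field E] [Algebra ℂ K] [Algebra ℂ L] [Algebra ℂ E]
  [Algebra L K] [IsScalarTower ℂ L K] [FiniteDimensional L K] [Algebra E L] [Algebra E K]
  [IsScalarTower ℂ E L] [IsScalarTower ℂ E K] [IsScalarTower E L K] {n N : ℕ} {t : Fin N → K}

omit [FiniteDimensional L K] [IsScalarTower ℂ L K] [IsScalarTower ℂ E L] [IsScalarTower ℂ E K]
  [IsScalarTower E L K] [Algebra E L] [Algebra E K] [Algebra L K] in
theorem range_app {a b : ℕ} (v : Fin a → K) (w : Fin b → K) :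
    Set.range (Fin.append v w) = Set.range v ∪ Set.range w := by
  ext z
  constructor
  · rintro ⟨i, rfl⟩
    refine Fin.addCases (fun i => ?_) (fun i => ?_) i
    · rw [Fin.append_left]
      exact Or.inl ⟨i, rfl⟩
    · rw [Fin.append_right]
      exact Or.inr ⟨i, rfl⟩
  · rintro (⟨i, rfl⟩ | ⟨i, rfl⟩)
    · exact ⟨Fin.castAdd b i, Fin.append_left _ _ _⟩
    · exact ⟨Fin.natAdd a i, Fin.append_right _ _ _⟩

/-- generators of the field of the base are added to the coordinates -/
theorem exists_append [Algebra.EssFiniteType ℂ E] (t : Fin N → K) :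
    ∃ (N' : ℕ) (t' : Fin N' → K),
      IntermediateField.adjoin ℂ (Set.range t') =
        (IntermediateField.adjoin E (Set.range t)).restrictScalars ℂ ∧
      IntermediateField.adjoin L (Set.range t') = IntermediateField.adjoin L (Set.range t) := by
  classical
  obtain ⟨s, hs⟩ := IntermediateField.fg_top ℂ E
  obtain ⟨u, hu⟩ : ∃ u : Fin (Fintype.card s) → E, Set.range u = (s : Set E) := by
    refine ⟨fun i => ((Fintype.equivFin s).symm i : E), ?_⟩
    ext z
    constructor
    · rintro ⟨i, rfl⟩
      exact ((Fintype.equivFin s).symm i).2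
    · intro hz
      exact ⟨Fintype.equivFin s ⟨z, hz⟩, by simp⟩
  refine ⟨N + Fintype.card s, Fin.append t fun i => algebraMap E K (u i), ?_, ?_⟩
  · have hrange : Set.range (Fin.append t fun i => algebraMap E K (u i)) =
        Set.range t ∪ algebraMap E K '' (s : Set E) := by
      rw [range_app, ← hu, ← Set.range_comp]
      rfl
    rw [hrange]
    apply le_antisymm
    · rw [IntermediateField.adjoin_le_iff]
      rintro z (hz | ⟨w, -, rfl⟩)
      · exact IntermediateField.subset_adjoin E _ hz
      · exact (IntermediateField.adjoin E (Set.range t)).algebraMap_mem w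
    · have h1 : ∀ w : E, algebraMap E K w ∈ IntermediateField.adjoin ℂ
          (Set.range t ∪ algebraMap E K '' (s : Set E)) := by
        intro w
        have h2 : w ∈ IntermediateField.adjoin ℂ (s : Set E) := by
          rw [hs]
          exact IntermediateField.mem_top
        have h3 : algebraMap E K w ∈ (IntermediateField.adjoin ℂ (s : Set E)).map
            (IsScalarTower.toAlgHom ℂ E K) := ⟨w, h2, rfl⟩
        rw [IntermediateField.adjoin_map] at h3
        refine IntermediateField.adjoin.mono _ _ _ ?_ h3
        intro z hz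
        exact Or.inr hz
      intro z hz
      have h4 : IntermediateField.adjoin E (Set.range t) ≤
          (IntermediateField.adjoin ℂ (Set.range t ∪ algebraMap E K '' (s : Set E))).toSubfield.toIntermediateField
            (fun w => h1 w) := by
        rw [IntermediateField.adjoin_le_iff]
        intro y hy
        exact IntermediateField.subset_adjoin ℂ _ (Or.inl hy)
      exact h4 hz
  · have hrange : Set.range (Fin.append t fun i => algebraMap E K (u i)) =
        Set.range t ∪ algebraMap E K '' (s : Set E) := by
      rw [range_app, ← hu, ← Set.range_comp]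
      rfl
    rw [hrange]
    apply le_antisymm
    · rw [IntermediateField.adjoin_le_iff]
      rintro z (hz | ⟨w, -, rfl⟩)
      · exact IntermediateField.subset_adjoin L _ hz
      · rw [IsScalarTower.algebraMap_apply E L K]
        exact (IntermediateField.adjoin L (Set.range t)).algebraMap_mem _
    · exact IntermediateField.adjoin.mono _ _ _ Set.subset_union_left

/-- If all traces of the forms vanish then the image is uniruled. -/
theorem uniruled_rel [Algebra.EssFiniteType ℂ K] [Algebra.EssFiniteType ℂ E] {J : Type} [Finite J]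
    {ω : J → (Fin (n + 1) → Derivation ℂ K K) → K} (hK : Algebra.trdeg ℂ K = (n + 1 : ℕ))
    (hd : Algebra.trdeg ℂ ((IntermediateField.adjoin E (Set.range t)).restrictScalars ℂ) = (n : ℕ))
    (hcl : ∀ g : K, IsAlgebraic ((IntermediateField.adjoin E (Set.range t)).restrictScalars ℂ) g →
      g ∈ (IntermediateField.adjoin E (Set.range t)).restrictScalars ℂ)
    (hspan : Pool.Agent.K4H25.LP.SpanFibL
      ((IntermediateField.adjoin E (Set.range t)).restrictScalars ℂ) (fun _ => False) ω)
    (h : ∀ p, ¬ TraceNe (ω p) ((IntermediateField.adjoin L (Set.range t)).restrictScalars ℂ)) :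
    IsUniruled ℂ L (n + 1) := by
  obtain ⟨N', t', h1, h2⟩ := exists_append (K := K) (L := L) (E := E) t
  obtain ⟨M, i1, i2, φ, h3, h4, -⟩ := Pool.Agent.K4H25.LP.uniruled_ofL (t := t') (ω := ω)
    (BK := fun _ => False) hK (by rw [h1]; exact hd) (by rw [h1]; exact hcl)
    (by rw [h1]; exact hspan) L (BL := fun _ => False) (fun _ _ _ _ h => h)
    (by rw [h2]; exact h)
  exact ⟨M, i1, i2, h3, h4, ⟨φ⟩⟩

end

end Pool.Agent.K4H25.RT
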