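import Pool.Agent.K4H25.RT.R8

/-!
Subadditivity of the Kodaira dimension for the images of families of fibrations by curves.
-/

set_option autoImplicit false
set_option linter.unusedSectionVars false
set_option linter.overlappingInstances false
set_option maxHeartbeats 4000000
set_option synthInstance.maxHeartbeats 400000

open Module FF Pool.Agent.W602.GT Pool.Agent.W603.LV Pool.Agent.Y172
open Pool.Agent.R882.LT (SecAt TraceNe secAt_of trForm_regAt)
open Pool.Agent.W619.PQ (IsUniruled)

namespace Pool.Agent.K4H25.RT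

open Pool.Agent.K4H25.MG Pool.Agent.K4H25.PC

section

variable {K L : Type} [Field K] [Field L] [Algebra ℂ K] [Algebra ℂ L]
  [Algebra L K] [IsScalarTower ℂ L K] [FiniteDimensional L K] {E : IntermediateField ℂ L}
  {n e N q d f : ℕ} {β : Fin N → Fin q} {M : Fin q → ℕ} {t : Fin N → K}

/-- the trace of one of the forms is not zero -/
theorem exists_trace_rel [Algebra.EssFiniteType ℂ K] [Algebra.EssFiniteType ℂ E] {J : Type}
    [Finite J] {ω : J → (Fin (n + 1) → Derivation ℂ K K) → K}
    (hK : Algebra.trdeg ℂ K = (n + 1 : ℕ)) (hE : Algebra.trdeg ℂ E = e)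
    (hf : Algebra.trdeg E L = f)
    (hd : Algebra.trdeg ℂ ((IntermediateField.adjoin E (Set.range t)).restrictScalars ℂ) = (n : ℕ))
    (hcl : ∀ g : K, IsAlgebraic ((IntermediateField.adjoin E (Set.range t)).restrictScalars ℂ) g →
      g ∈ (IntermediateField.adjoin E (Set.range t)).restrictScalars ℂ)
    (hspan : Pool.Agent.K4H25.LP.SpanFibL
      ((IntermediateField.adjoin E (Set.range t)).restrictScalars ℂ) (fun _ => False) ω)
    (hY : KodGe ℂ E e (fun _ => False) 0) (hF : Psef E L f (fun _ => False)) :
    ∃ j, TraceNe (ω j) ((IntermediateField.adjoin L (Set.range t)).restrictScalars ℂ) := by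
  by_contra hcon
  push Not at hcon
  have hL : Algebra.trdeg ℂ L = (n + 1 : ℕ) := Pool.Agent.Y184.NT.trdeg_below (K := K) hK
  have hessL : Algebra.EssFiniteType ℂ L := Pool.Agent.TH466.QG.ess_below (K := K)
  exact Pool.Agent.R882.UA.fib_not hL (uniruled_rel hK hd hcl hspan hcon) E hE hf hY hF

end

end Pool.Agent.K4H25.RT
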